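import Pool.Agent.Y933.KD.Norm2

/-!
# Normality from small Fourier coefficients: blocks whose length is a multiple of the saving

This follows `Pool.Agent.Y933.KD.Norm2`, with a general saving `exp (-τ)` and a general number `T`
of digits.
-/

set_option autoImplicit false

namespace Pool.Agent.N586.RT

open Finset Real MeasureTheory Filter Topology
open Pool.Agent.Y933.KD

/-- one interval -/
lemma event_test {b n : ℕ} (hb : 1 ≤ b) {τ : ℝ} (hτ : 1 ≤ τ) (P : Measure ℝ)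
    [IsProbabilityMeasure P]
    (h : ∀ h : ℤ, h ≠ 0 → |(h : ℝ)| ≤ Real.exp τ → ‖hat P (h * (b : ℤ) ^ n)‖ ≤ Real.exp (-τ))
    (u v : ℝ) (hu : 0 ≤ u) (hv : v ≤ 1) :
    |P.real (Ev (fun _ : Fin 1 => b) (fun _ => n) (fun _ => u) (fun _ => v)) -
      Leb.real (Ev (fun _ : Fin 1 => b) (fun _ => n) (fun _ => u) (fun _ => v))| ≤
      32 * Real.exp (-(τ / 5)) := by
  set K : ℕ := ⌊Real.exp (τ / 5)⌋₊ with hKdef
  have hE1 : 1 ≤ Real.exp (τ / 5) := Real.one_le_exp (by linarith)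
  have hK : 0 < K := Nat.floor_pos.2 hE1
  have hK1 : (K : ℝ) ≤ Real.exp (τ / 5) := Nat.floor_le (by linarith)
  have hKR : (1 : ℝ) ≤ K := by exact_mod_cast hK
  have hK2 : Real.exp (τ / 5) ≤ 2 * K := by
    have h1 := Nat.lt_floor_add_one (Real.exp (τ / 5))
    rw [← hKdef] at h1
    linarith
  have hK3 : (K : ℝ) ^ 3 ≤ Real.exp (3 * τ / 5) := by
    calc (K : ℝ) ^ 3 ≤ (Real.exp (τ / 5)) ^ 3 := by gcongr
      _ = Real.exp (3 * τ / 5) := by
          rw [← Real.exp_nat_mul]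
          congr 1
          push_cast
          ring
  have hq : ∀ i : Fin 1, ((fun _ : Fin 1 => (b : ℤ) ^ n) i) ≠ 0 := fun i => by
    have : (b : ℤ) ≠ 0 := by omega
    exact pow_ne_zero _ this
  have key := test hK P Leb hat_Leb (fun _ : Fin 1 => (b : ℤ) ^ n) hq (Real.exp (-τ))
    (by
      intro g hg hne
      simp only [Fin.sum_univ_one] at hne ⊢
      have hg0 : g 0 ≠ 0 := by
        intro h0
        rw [h0, zero_mul] at hne
        exact hne rfl
      refine h (g 0) hg0 ?_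
      have h1 : |(g 0 : ℝ)| ≤ (K : ℝ) ^ 3 := by exact_mod_cast hg 0
      refine (h1.trans hK3).trans (Real.exp_le_exp.2 (by linarith))) (Real.exp_pos _).le
    (fun _ => u) (fun _ => v) (fun _ => hu) (fun _ => hv)
  have hi := integral_ind P (fun _ : Fin 1 => b) (fun _ => n) (fun _ => u) (fun _ => v)
  have hi' := integral_ind Leb (fun _ : Fin 1 => b) (fun _ => n) (fun _ => u) (fun _ => v)
  rw [← hi, ← hi']
  refine key.trans ?_
  rw [pow_one, Nat.cast_one, one_mul]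
  have h1 : (2 * (K : ℝ) ^ 3 + 1) * Real.exp (-τ) ≤ 3 * Real.exp (-(τ / 5)) := by
    have h2 : 2 * (K : ℝ) ^ 3 + 1 ≤ 3 * Real.exp (3 * τ / 5) := by
      have : 1 ≤ Real.exp (3 * τ / 5) := Real.one_le_exp (by linarith)
      linarith
    calc (2 * (K : ℝ) ^ 3 + 1) * Real.exp (-τ) ≤ 3 * Real.exp (3 * τ / 5) * Real.exp (-τ) := by
          gcongr
      _ = 3 * Real.exp (3 * τ / 5 + -τ) := by rw [Real.exp_add]; ring
      _ ≤ 3 * Real.exp (-(τ / 5)) := by
          refine mul_le_mul_of_nonneg_left (Real.exp_le_exp.2 ?_) (by norm_num)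
          linarith
  have h2 : 12 / (K : ℝ) ≤ 24 * Real.exp (-(τ / 5)) := by
    rw [div_le_iff₀ (by linarith), Real.exp_neg]
    have h3 : 0 < Real.exp (τ / 5) := Real.exp_pos _
    have h4 : 24 * (Real.exp (τ / 5))⁻¹ * K = 12 * ((2 * K) / Real.exp (τ / 5)) := by
      field_simp
      ring
    rw [h4]
    have h5 : 1 ≤ 2 * (K : ℝ) / Real.exp (τ / 5) := by rw [le_div_iff₀ h3]; linarith
    linarith
  have h3 : Real.exp (-τ) ≤ Real.exp (-(τ / 5)) := Real.exp_le_exp.2 (by linarith)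
  linarith

/-- **normality in all windows** -/
theorem block {B w : ℕ} (hw : 1 ≤ w) {ε : ℝ} (hε : 0 < ε) :
    ∃ c : ℝ, 0 < c ∧ ∃ τ0 : ℝ, ∀ τ : ℝ, τ0 ≤ τ → ∀ T : ℝ, 1 ≤ T → ∀ P : Measure ℝ,
      IsProbabilityMeasure P →
      (∀ (b n : ℕ) (h : ℤ), 2 ≤ b → b ≤ B → (n : ℝ) ≤ T → h ≠ 0 → |(h : ℝ)| ≤ Real.exp τ →
        ‖hat P (h * (b : ℤ) ^ n)‖ ≤ Real.exp (-τ)) →
      ∃ U : Set ℝ, MeasurableSet U ∧ P.real U ≤ T * Real.exp (-(c * τ)) ∧
        ∀ x, x ∉ U → ∀ b k j s N : ℕ, 2 ≤ b → b ≤ B → 1 ≤ k → k ≤ w → j < b ^ k →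
          (s : ℝ) + N ≤ T → |WS b k (ci b k j) s N x| ≤ ε * N + τ := by
  classical
  set lB : ℝ := log (max (B : ℝ) 2) with hlB
  have hlB0 : 0 < lB := Real.log_pos (by have := le_max_right (B : ℝ) 2; linarith)
  set κ : ℝ := min 1 (1 / (10 * lB)) with hκ
  have hκ0 : 0 < κ := lt_min one_pos (by positivity)
  have hκ1 : κ ≤ 1 := min_le_left _ _
  have hκδ : κ * lB ≤ 1 / 10 := by
    have : κ ≤ 1 / (10 * lB) := min_le_right _ _
    calc κ * lB ≤ 1 / (10 * lB) * lB := by gcongr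
      _ = 1 / 10 := by field_simp
  have hwR : (1 : ℝ) ≤ w := by exact_mod_cast hw
  set c0 : ℝ := 3 / 8 * (ε ^ 2 * κ / w ^ 2) with hc0
  have hc00 : 0 < c0 := by positivity
  set C1 : ℝ := 2 * exp (2 * w ^ 2 + ε ^ 2 / (2 * w)) with hC1
  have hC10 : 0 < C1 := by positivity
  set c2 : ℝ := min c0 (1 / 10) with hc2
  have hc20 : 0 < c2 := lt_min hc00 (by positivity)
  set nU : ℝ := (B + 1) * (w + 1) * (B : ℝ) ^ w with hnU
  set C3 : ℝ := (nU * 2) * (C1 + 32) with hC3
  have hC30 : 0 ≤ C3 := by positivity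
  -- large `τ`
  refine ⟨c2 / 2, by positivity, max (max (((w : ℝ) + 1) / κ) (C3 / (c2 / 2))) 1, ?_⟩
  intro τ hτ0 T hT P hP hhat
  have hτ1 : ((w : ℝ) + 1) / κ ≤ τ := (le_max_left _ _).trans ((le_max_left _ _).trans hτ0)
  have hτ2 : C3 / (c2 / 2) ≤ τ := (le_max_right _ _).trans ((le_max_left _ _).trans hτ0)
  have hτ3 : 1 ≤ τ := (le_max_right _ _).trans hτ0
  have ht0 : 0 < τ := by linarith
  have hκt : (w : ℝ) + 1 ≤ κ * τ := by
    rw [div_le_iff₀ hκ0] at hτ1
    linarith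
  have hC3e : C3 ≤ Real.exp (c2 / 2 * τ) := by
    rw [div_le_iff₀ (by positivity)] at hτ2
    have := Real.add_one_le_exp (c2 / 2 * τ)
    linarith
  set ℓ : ℕ := ⌊κ * τ⌋₊ with hℓ
  have hℓ1 : (ℓ : ℝ) ≤ κ * τ := Nat.floor_le (by positivity)
  have hℓ2 : κ * τ < ℓ + 1 := Nat.lt_floor_add_one _
  have hwℓ : w ≤ ℓ := by
    have : (w : ℝ) < ℓ + 1 := by linarith
    have : w < ℓ + 1 := by exact_mod_cast this
    omega
  -- the index set and the exceptional set
  set I : Finset (((ℕ × ℕ) × ℕ) × ℕ) := (((Finset.Icc 2 B ×ˢ Finset.Icc 1 w) ×ˢ range (B ^ w)) ×ˢ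
    range (⌊T⌋₊ + 1)).filter (fun q => q.1.2 < q.1.1.1 ^ q.1.1.2 ∧ (q.2 : ℝ) ≤ T) with hI
  set E : ((ℕ × ℕ) × ℕ) × ℕ → Set ℝ := fun q => Dv q.1.1.1 q.1.1.2 (ci q.1.1.1 q.1.1.2 q.1.2) q.2
    (ℓ + 1 - q.1.1.2) (ε * ((ℓ + 1 - q.1.1.2 : ℕ) : ℝ)) with hE
  refine ⟨⋃ q ∈ I, E q, ?_, ?_, ?_⟩
  · exact MeasurableSet.biUnion (Finset.countable_toSet I) fun q _ => measurableSet_Dv _ _ _ _ _ _
  · have hone : ∀ q ∈ I, P.real (E q) ≤ (C1 + 32) * Real.exp (-(c2 * τ)) := by
      intro q hq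
      rw [hI, mem_filter, mem_product, mem_product, mem_product] at hq
      obtain ⟨⟨⟨⟨hb, hk⟩, _⟩, _⟩, hjb, hsA⟩ := hq
      obtain ⟨⟨⟨b, k⟩, j⟩, s⟩ := q
      simp only at hb hk hjb hsA ⊢
      rw [mem_Icc] at hb hk
      have hb1 : 1 ≤ b := by omega
      have hbR : (1 : ℝ) ≤ b := by exact_mod_cast hb1
      have hkR : (1 : ℝ) ≤ k := by exact_mod_cast hk.1
      have hkwR : (k : ℝ) ≤ w := by exact_mod_cast hk.2
      set L : ℕ := ℓ + 1 - k with hL
      have hL1 : 1 ≤ L := by omega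
      have hLk : L + k ≤ ℓ + 1 := by omega
      have hLR : (L : ℝ) = ℓ + 1 - k := by
        rw [hL, Nat.cast_sub (by omega)]; push_cast; ring
      have hLκ : (L : ℝ) ≤ κ * τ := by rw [hLR]; linarith
      have hLlow : κ * τ - w ≤ L := by rw [hLR]; linarith
      obtain ⟨φ, hφ⟩ := WS_inside (b := b) hb1 (k := k) (L := L) (ℓ := ℓ) hLk (ci b k j)
      have hEq : E (((b, k), j), s) = {x | ε * (L : ℝ) < |φ (wd b ℓ s x)|} := by
        rw [hE]
        ext x
        unfold Dv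
        simp only [Set.mem_ofPred_eq]
        rw [hφ]
      have h1 := event_le (b := b) (ℓ := ℓ) hb1 s P (Δ := 32 * Real.exp (-(τ / 5)))
        (fun u v hu hv => event_test hb1 hτ3 P
          (fun h hne hh => hhat b s h hb.1 hb.2 hsA hne hh) u v hu hv)
        (fun c => ε * (L : ℝ) < |φ c|)
      rw [← hEq] at h1
      have h2 := dev_Leb (b := b) (k := k) (c := j) hb1 hk.1 hjb s L hL1 hε
      have hEq2 : E (((b, k), j), s) = Dv b k (ci b k j) s L (ε * L) := rfl
      rw [← hEq2] at h2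
      -- the Lebesgue part
      have h3 : ε / k * √(L : ℝ) - ε ^ 2 * L / (2 * k ^ 2) ≤
          -(c0 * τ) + (2 * w ^ 2 + ε ^ 2 / (2 * w)) := by
        have h4 : ε / k * √(L : ℝ) ≤ ε * √(κ * τ) := by
          have h5 : ε / k ≤ ε := div_le_self hε.le hkR
          have h6 : √(L : ℝ) ≤ √(κ * τ) := Real.sqrt_le_sqrt hLκ
          exact mul_le_mul h5 h6 (Real.sqrt_nonneg _) hε.le
        have h5 := sqrt_le_lin (z := κ * τ) (η := ε / (8 * w ^ 2)) (by positivity) (by positivity)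
        have h6 : ε * √(κ * τ) ≤ ε ^ 2 * (κ * τ) / (8 * w ^ 2) + 2 * w ^ 2 := by
          calc ε * √(κ * τ) ≤ ε * (ε / (8 * w ^ 2) * (κ * τ) + 1 / (4 * (ε / (8 * w ^ 2)))) := by
                gcongr
            _ = ε ^ 2 * (κ * τ) / (8 * w ^ 2) + 2 * w ^ 2 := by
                field_simp
                ring
        have h7 : ε ^ 2 * (κ * τ - w) / (2 * w ^ 2) ≤ ε ^ 2 * L / (2 * k ^ 2) := by
          have h8 : 0 ≤ κ * τ - w := by linarith
          apply div_le_div₀ (by positivity)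
          · gcongr
          · positivity
          · gcongr
        have h9 : ε ^ 2 * (κ * τ - w) / (2 * w ^ 2) =
            ε ^ 2 * (κ * τ) / (2 * w ^ 2) - ε ^ 2 / (2 * w) := by
          field_simp
        have h10 : c0 * τ = 3 / 8 * (ε ^ 2 * (κ * τ) / w ^ 2) := by rw [hc0]; ring
        have h11 : ε ^ 2 * (κ * τ) / (8 * w ^ 2) - ε ^ 2 * (κ * τ) / (2 * w ^ 2) =
            -(3 / 8 * (ε ^ 2 * (κ * τ) / w ^ 2)) := by
          field_simp
          ring
        rw [h10]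
        linarith
      have h4 : Leb.real (E (((b, k), j), s)) ≤ C1 * Real.exp (-(c0 * τ)) := by
        refine h2.trans ?_
        rw [hC1, mul_assoc, ← Real.exp_add]
        refine mul_le_mul_of_nonneg_left (Real.exp_le_exp.2 ?_) (by norm_num)
        refine h3.trans (le_of_eq ?_)
        ring
      have h5 : (b : ℝ) ^ ℓ * (32 * Real.exp (-(τ / 5))) ≤ 32 * Real.exp (-(1 / 10 * τ)) := by
        have h6 : (b : ℝ) ^ ℓ ≤ Real.exp (τ / 10) := by
          rw [← Real.exp_log (by positivity : (0 : ℝ) < (b : ℝ) ^ ℓ), Real.log_pow]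
          apply Real.exp_le_exp.2
          have h7 : log b ≤ lB := by
            apply Real.log_le_log (by linarith)
            refine le_trans ?_ (le_max_left _ _)
            exact_mod_cast hb.2
          have h8 : 0 ≤ log (b : ℝ) := Real.log_nonneg hbR
          calc (ℓ : ℝ) * log b ≤ (κ * τ) * lB := by gcongr
            _ = τ * (κ * lB) := by ring
            _ ≤ τ * (1 / 10) := by gcongr
            _ = τ / 10 := by ring
        calc (b : ℝ) ^ ℓ * (32 * Real.exp (-(τ / 5))) ≤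
            Real.exp (τ / 10) * (32 * Real.exp (-(τ / 5))) := by gcongr
          _ = 32 * Real.exp (-(1 / 10 * τ)) := by
              rw [mul_left_comm, ← Real.exp_add]
              congr 2
              ring
      have h6 : Real.exp (-(c0 * τ)) ≤ Real.exp (-(c2 * τ)) := by
        apply Real.exp_le_exp.2
        have := min_le_left c0 (1 / 10)
        nlinarith
      have h7 : Real.exp (-(1 / 10 * τ)) ≤ Real.exp (-(c2 * τ)) := by
        apply Real.exp_le_exp.2
        have := min_le_right c0 (1 / 10)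
        nlinarith
      calc P.real (E (((b, k), j), s)) ≤ Leb.real (E (((b, k), j), s)) +
            (b : ℝ) ^ ℓ * (32 * Real.exp (-(τ / 5))) := h1
        _ ≤ C1 * Real.exp (-(c2 * τ)) + 32 * Real.exp (-(c2 * τ)) := by
            refine add_le_add (h4.trans ?_) (h5.trans ?_)
            · gcongr
            · gcongr
        _ = (C1 + 32) * Real.exp (-(c2 * τ)) := by ring
    have hcard : (I.card : ℝ) ≤ nU * 2 * T := by
      have h1 : I.card ≤ ((Finset.Icc 2 B).card * (Finset.Icc 1 w).card * (B ^ w)) *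
          (⌊T⌋₊ + 1) := by
        refine (card_filter_le _ _).trans (le_of_eq ?_)
        rw [card_product, card_product, card_product, card_range, card_range]
      have h2 : ((Finset.Icc 2 B).card : ℝ) ≤ B + 1 := by
        rw [Nat.card_Icc]
        have : B + 1 - 2 ≤ B + 1 := Nat.sub_le _ _
        exact_mod_cast this
      have h3 : ((Finset.Icc 1 w).card : ℝ) ≤ w + 1 := by
        rw [Nat.card_Icc]
        have : w + 1 - 1 ≤ w + 1 := Nat.sub_le _ _
        exact_mod_cast this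
      have h4 : (⌊T⌋₊ : ℝ) ≤ T := Nat.floor_le (by positivity)
      calc (I.card : ℝ) ≤ ((((Finset.Icc 2 B).card * (Finset.Icc 1 w).card * (B ^ w)) *
            (⌊T⌋₊ + 1) : ℕ) : ℝ) := by exact_mod_cast h1
        _ = (((Finset.Icc 2 B).card : ℝ) * ((Finset.Icc 1 w).card : ℝ) * (B : ℝ) ^ w) *
            ((⌊T⌋₊ : ℝ) + 1) := by push_cast; ring
        _ ≤ ((B + 1) * (w + 1) * (B : ℝ) ^ w) * (T + T) := by
            gcongr
        _ = nU * 2 * T := by
            rw [hnU]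
            ring
    have h1 : P.real (⋃ q ∈ I, E q) ≤ ∑ q ∈ I, P.real (E q) := measureReal_biUnion_finset_le _ _
    calc P.real (⋃ q ∈ I, E q) ≤ ∑ q ∈ I, P.real (E q) := h1
      _ ≤ ∑ _q ∈ I, (C1 + 32) * Real.exp (-(c2 * τ)) := sum_le_sum hone
      _ = I.card * ((C1 + 32) * Real.exp (-(c2 * τ))) := by rw [sum_const, nsmul_eq_mul]
      _ ≤ (nU * 2 * T) * ((C1 + 32) * Real.exp (-(c2 * τ))) := by
          refine mul_le_mul_of_nonneg_right hcard (by positivity)
      _ = T * (C3 * Real.exp (-(c2 * τ))) := by rw [hC3]; ring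
      _ ≤ T * (Real.exp (c2 / 2 * τ) * Real.exp (-(c2 * τ))) := by gcongr
      _ = T * Real.exp (-(c2 / 2 * τ)) := by
          rw [← Real.exp_add]
          congr 2
          ring
  · intro x hx b k j s N hb hbB hk hkw hj hsN
    have hb1 : 1 ≤ b := by omega
    have hkR : (1 : ℝ) ≤ k := by exact_mod_cast hk
    set L : ℕ := ℓ + 1 - k with hL
    have hL1 : 1 ≤ L := by omega
    have hLR : (L : ℝ) = ℓ + 1 - k := by
      rw [hL, Nat.cast_sub (by omega)]; push_cast; ring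
    have hLR0 : (0 : ℝ) < L := by exact_mod_cast hL1
    have hLκ : (L : ℝ) ≤ κ * τ := by rw [hLR]; linarith
    have hdet := det_block (b := b) (k := k) (G := ci b k j) (L := L) (τ := ε * L)
      (T := T) (x := x) (ci_le hb1 k j) hL1 (by positivity) (by
      intro s' hs' hmem
      apply hx
      rw [Set.mem_iUnion₂]
      refine ⟨(((b, k), j), s'), ?_, hmem⟩
      rw [hI, mem_filter, mem_product, mem_product, mem_product]
      refine ⟨⟨⟨⟨mem_Icc.2 ⟨hb, hbB⟩, mem_Icc.2 ⟨hk, hkw⟩⟩, ?_⟩, ?_⟩, hj, hs'⟩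
      · rw [mem_range]
        calc j < b ^ k := hj
          _ ≤ B ^ k := Nat.pow_le_pow_left hbB k
          _ ≤ B ^ w := Nat.pow_le_pow_right (by omega) hkw
      · rw [mem_range, Nat.lt_succ_iff]
        exact Nat.le_floor hs') s N hsN
    refine hdet.trans ?_
    have h1 : (N : ℝ) / L * (ε * L) = ε * N := by field_simp
    rw [h1]
    have h2 : κ * τ ≤ 1 * τ := by gcongr
    linarith

end Pool.Agent.N586.RT
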