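import Pool.Agent.N586.RT.Big
import Pool.Agent.N586.RT.Blk

/-!
# The Fourier coefficients of the uniform measures on the numbers `f(m ^ (1 / d)) / c`
-/

set_option autoImplicit false

namespace Pool.Agent.N586.RT

open Finset Real Filter Polynomial MeasureTheory
open Pool.Agent.Y933.KD (e norm_e e_add hat unif integral_unif unif_prob)
open Pool.Agent.Y933.KD.VdC (ev_le)

/-- powers of `log N` -/
lemma logpow {a b : ℝ} (hab : a < b) (K : ℝ) :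
    ∀ᶠ N : ℕ in atTop, K * (log N) ^ a ≤ (log N) ^ b := by
  have hlog : Tendsto (fun N : ℕ => log (N : ℝ)) atTop atTop :=
    Real.tendsto_log_atTop.comp tendsto_natCast_atTop_atTop
  have h3 := ((tendsto_rpow_atTop (sub_pos.2 hab)).comp hlog).eventually_ge_atTop K
  filter_upwards [h3, hlog.eventually_gt_atTop 0] with N h4 h5
  have h6 : (log (N : ℝ)) ^ b = (log N) ^ (b - a) * (log N) ^ a := by
    rw [← Real.rpow_add h5]
    congr 1
    ring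
  rw [h6]
  exact mul_le_mul_of_nonneg_right h4 (by positivity)

lemma log_ge (K : ℝ) : ∀ᶠ N : ℕ in atTop, K ≤ log N :=
  (Real.tendsto_log_atTop.comp tendsto_natCast_atTop_atTop).eventually_ge_atTop K

/-- the value of the polynomial at the root -/
lemma value_eq {d : ℕ} (hd : 2 ≤ d) (f : ℤ[X]) (hf : f.natDegree < d) (c : ℝ) (m : ℕ) :
    aeval ((m : ℝ) ^ (1 / (d : ℝ))) f / c =
      f.coeff 0 / c + fr d (fun i => (f.coeff i : ℝ) / c) m := by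
  have hd0 : (0 : ℝ) < d := by exact_mod_cast (by omega : 0 < d)
  have h1 : aeval ((m : ℝ) ^ (1 / (d : ℝ))) f =
      ∑ i ∈ Finset.range d, (f.coeff i : ℝ) * ((m : ℝ) ^ (1 / (d : ℝ))) ^ i := by
    rw [aeval_eq_sum_range' hf]
    refine Finset.sum_congr rfl fun i _ => ?_
    rw [zsmul_eq_mul]
  obtain ⟨q, rfl⟩ : ∃ q, d = q + 1 := ⟨d - 1, by omega⟩
  rw [h1, Finset.sum_range_succ', pow_zero, mul_one, add_div, add_comm, Finset.sum_div]
  congr 1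
  unfold fr
  rw [Nat.add_sub_cancel, sum_Icc_range']
  refine Finset.sum_congr rfl fun i _ => ?_
  rw [← Real.rpow_natCast, ← Real.rpow_mul (Nat.cast_nonneg m)]
  have e1 : 1 / (((q + 1 : ℕ) : ℝ)) * ((i + 1 : ℕ) : ℝ) = ((i + 1 : ℕ) : ℝ) / ((q + 1 : ℕ) : ℝ) := by
    ring
  rw [e1]
  ring

/-- **the Fourier coefficients** -/
theorem hat_all (d : ℕ) (hd : 2 ≤ d) : ∃ δ : ℝ, 0 < δ ∧ ∃ M0 : ℕ, ∀ M : ℕ, M0 ≤ M →
    ∀ (f : ℤ[X]) (c : ℕ), 1 ≤ f.natDegree → f.natDegree < d →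
    (∀ i, |(f.coeff i : ℝ)| ≤ Real.exp ((log M) ^ (4 / 5 : ℝ))) → 1 ≤ c →
    (c : ℝ) ≤ Real.exp ((log M) ^ (4 / 5 : ℝ)) →
    ∀ l : ℤ, l ≠ 0 → |(l : ℝ)| ≤ Real.exp (2 / 5 * (log M) ^ (1 + δ)) →
      ‖hat (unif (Finset.Ioc M (2 * M)) (fun m : ℕ => aeval ((m : ℝ) ^ (1 / (d : ℝ))) f / c)) l‖ ≤
        Real.exp (-(log M) ^ (9 / 10 : ℝ)) := by
  have hdR : (2 : ℝ) ≤ d := by exact_mod_cast hd
  have hd0 : (0 : ℝ) < d := by linarith
  obtain ⟨δ, hδ, hδ1, N0, hN0⟩ := sum_all d hd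
  refine ⟨δ, hδ, ?_⟩
  obtain ⟨N1, hN1⟩ := eventually_atTop.1 ((((logpow (by norm_num : (4 / 5 : ℝ) < 1) (4 * d)).and
    (logpow (by linarith : (1 : ℝ) < 1 + δ) 20)).and (log_ge 1)).and (eventually_ge_atTop 2))
  refine ⟨max N0 N1, ?_⟩
  intro M hM f c hf1 hf2 hf3 hc1 hc2 l hl0 hl2
  have hMN0 : N0 ≤ M := le_of_max_le_left hM
  obtain ⟨⟨⟨ha, hc'⟩, hL1⟩, hM2⟩ := hN1 M (le_of_max_le_right hM)
  have hMR : (2 : ℝ) ≤ M := by exact_mod_cast hM2
  have hMp : (0 : ℝ) < M := by linarith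
  obtain ⟨L, hL⟩ : ∃ L : ℝ, L = log M := ⟨_, rfl⟩
  rw [← hL] at ha hc' hL1 hf3 hc2 hl2 ⊢
  rw [Real.rpow_one] at ha hc'
  have hL0 : 0 < L := by linarith
  have hexp : ∀ x : ℝ, (M : ℝ) ^ x = Real.exp (x * L) := by
    intro x
    rw [Real.rpow_def_of_pos hMp, hL, mul_comm]
  have hcR : (1 : ℝ) ≤ c := by exact_mod_cast hc1
  have hcp : (0 : ℝ) < c := by linarith
  set J : ℕ := f.natDegree with hJ
  have hfJ : f.coeff J ≠ 0 := by
    rw [hJ, coeff_natDegree, Ne, leadingCoeff_eq_zero]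
    intro h0
    rw [hJ, h0, natDegree_zero] at hf1
    omega
  have hfJ1 : (1 : ℝ) ≤ |(f.coeff J : ℝ)| := by
    have : (1 : ℤ) ≤ |f.coeff J| := Int.one_le_abs hfJ
    exact_mod_cast this
  -- the frequency
  have hl1 : (1 : ℝ) ≤ |(l : ℝ)| := by
    have : (1 : ℤ) ≤ |l| := Int.one_le_abs hl0
    exact_mod_cast this
  -- the coefficients
  set A : ℕ → ℝ := fun i => (l : ℝ) * ((f.coeff i : ℝ) / c) with hA
  have hAJ : |A J| = |(l : ℝ)| * (|(f.coeff J : ℝ)| / c) := by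
    rw [hA]
    simp only
    rw [abs_mul, abs_div, abs_of_pos hcp]
  have hV1 : Real.exp (L ^ (4 / 5 : ℝ)) ≤ (M : ℝ) ^ (1 / (4 * (d : ℝ))) := by
    rw [hexp]
    apply Real.exp_le_exp.2
    rw [div_mul_eq_mul_div, one_mul, le_div_iff₀ (by positivity)]
    linarith
  have htop : Top d J M A := by
    refine ⟨hf1, hf2, ?_, ?_, ?_⟩
    · rw [← abs_pos, hAJ]
      positivity
    · intro i hi
      have h0 : f.coeff i = 0 := coeff_eq_zero_of_natDegree_lt hi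
      rw [hA]
      simp [h0]
    · intro i
      rw [hAJ]
      have h1 : |A i| = |(l : ℝ)| * (|(f.coeff i : ℝ)| / c) := by
        rw [hA]
        simp only
        rw [abs_mul, abs_div, abs_of_pos hcp]
      rw [h1]
      calc |(l : ℝ)| * (|(f.coeff i : ℝ)| / c) ≤ |(l : ℝ)| * ((M : ℝ) ^ (1 / (4 * (d : ℝ))) / c) := by
            have := (hf3 i).trans hV1
            gcongr
        _ = (M : ℝ) ^ (1 / (4 * (d : ℝ))) * (|(l : ℝ)| * (1 / c)) := by ring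
        _ ≤ _ := by gcongr
  obtain ⟨hβ0, hβ1⟩ : 0 < (J : ℝ) / d ∧ (J : ℝ) / d < 1 := by
    refine frac_mem (Finset.mem_Icc.2 ⟨hf1, ?_⟩)
    omega
  set Q : ℝ := 12 * (|A J| * (2 * (M : ℝ)) ^ ((J : ℝ) / d)) with hQ
  have hQ0 : 0 < Q := by
    have := abs_pos.2 htop.ne
    positivity
  obtain ⟨κ, hκ⟩ : ∃ κ : ℝ, κ = log Q / L := ⟨_, rfl⟩
  have hκQ : (M : ℝ) ^ κ = Q := by
    rw [hexp, hκ, div_mul_cancel₀ _ hL0.ne', Real.exp_log hQ0]
  -- lower bound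
  have hκ1 : 1 / (2 * (d : ℝ)) ≤ κ := by
    rw [hκ, le_div_iff₀ hL0, Real.le_log_iff_exp_le hQ0]
    have h1 : Real.exp (-L ^ (4 / 5 : ℝ)) ≤ |A J| := by
      rw [hAJ, Real.exp_neg]
      calc (Real.exp (L ^ (4 / 5 : ℝ)))⁻¹ ≤ (c : ℝ)⁻¹ := inv_anti₀ hcp hc2
        _ = 1 * (1 / c) := by rw [one_mul, one_div]
        _ ≤ _ := by gcongr
    have h2 : Real.exp (1 / d * L) ≤ (2 * (M : ℝ)) ^ ((J : ℝ) / d) := by
      calc Real.exp (1 / d * L) = (M : ℝ) ^ (1 / (d : ℝ)) := (hexp _).symm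
        _ ≤ (M : ℝ) ^ ((J : ℝ) / d) := by
            apply Real.rpow_le_rpow_of_exponent_le (by linarith)
            have : (1 : ℝ) ≤ J := by exact_mod_cast hf1
            gcongr
        _ ≤ _ := Real.rpow_le_rpow hMp.le (by linarith) hβ0.le
    have h3 : L ^ (4 / 5 : ℝ) ≤ 1 / (2 * d) * L := by
      rw [div_mul_eq_mul_div, one_mul, le_div_iff₀ (by positivity)]
      have : 0 ≤ L ^ (4 / 5 : ℝ) * d := by positivity
      linarith
    have h4 : 1 / (2 * (d : ℝ)) * L = 1 / d * L - 1 / (2 * d) * L := by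
      field_simp
      ring
    calc Real.exp (1 / (2 * (d : ℝ)) * L) ≤ Real.exp (-L ^ (4 / 5 : ℝ) + 1 / d * L) := by
          apply Real.exp_le_exp.2
          linarith
      _ = Real.exp (-L ^ (4 / 5 : ℝ)) * Real.exp (1 / d * L) := Real.exp_add _ _
      _ ≤ |A J| * (2 * (M : ℝ)) ^ ((J : ℝ) / d) := by gcongr
      _ ≤ Q := by
          have : 0 ≤ |A J| * (2 * (M : ℝ)) ^ ((J : ℝ) / d) := by positivity
          linarith
  -- upper bound
  have hκ2 : κ ≤ L ^ δ := by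
    rw [hκ, div_le_iff₀ hL0]
    have e0 : L ^ δ * L = L ^ (1 + δ) := by
      rw [add_comm, Real.rpow_add hL0, Real.rpow_one]
    rw [e0, Real.log_le_iff_le_exp hQ0]
    have h1 : |A J| ≤ Real.exp (2 / 5 * L ^ (1 + δ)) * Real.exp (L ^ (4 / 5 : ℝ)) := by
      rw [hAJ]
      have h2 : |(f.coeff J : ℝ)| / c ≤ Real.exp (L ^ (4 / 5 : ℝ)) :=
        (div_le_self (abs_nonneg _) hcR).trans (hf3 J)
      gcongr
    have h2 : (2 * (M : ℝ)) ^ ((J : ℝ) / d) ≤ Real.exp (2 * L) := by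
      calc (2 * (M : ℝ)) ^ ((J : ℝ) / d) ≤ (2 * (M : ℝ)) ^ (1 : ℝ) :=
            Real.rpow_le_rpow_of_exponent_le (by linarith) hβ1.le
        _ = 2 * M := Real.rpow_one _
        _ ≤ M * M := by nlinarith
        _ = Real.exp (2 * L) := by
            rw [two_mul, Real.exp_add, hL, Real.exp_log hMp]
    have h3 : (12 : ℝ) ≤ Real.exp (3 * L) := by
      have h4 : (2.7 : ℝ) ≤ Real.exp 1 := by
        have := Real.exp_one_gt_d9
        linarith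
      calc (12 : ℝ) ≤ 2.7 ^ 3 := by norm_num
        _ ≤ (Real.exp 1) ^ 3 := pow_le_pow_left₀ (by norm_num) h4 3
        _ = Real.exp 3 := by rw [← Real.exp_nat_mul]; norm_num
        _ ≤ _ := Real.exp_le_exp.2 (by linarith)
    have h5 : L ^ (4 / 5 : ℝ) ≤ L := by
      have : 0 ≤ L ^ (4 / 5 : ℝ) := by positivity
      nlinarith
    calc Q ≤ Real.exp (3 * L) * ((Real.exp (2 / 5 * L ^ (1 + δ)) * Real.exp (L ^ (4 / 5 : ℝ))) *
          Real.exp (2 * L)) := by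
            rw [hQ]
            gcongr
      _ = Real.exp (3 * L + (2 / 5 * L ^ (1 + δ) + L ^ (4 / 5 : ℝ) + 2 * L)) := by
          rw [Real.exp_add, Real.exp_add, Real.exp_add]
      _ ≤ _ := by
          apply Real.exp_le_exp.2
          linarith
  have key := hN0 M hMN0 A J κ htop hκQ hκ1 (by rw [← hL]; exact hκ2)
  rw [← hL] at key
  -- the Fourier coefficient
  unfold hat
  rw [integral_unif, Nat.card_Ioc]
  have e1 : 2 * M - M = M := by omega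
  rw [e1]
  have h1 : ∑ m ∈ Finset.Ioc M (2 * M), e (l * (aeval ((m : ℝ) ^ (1 / (d : ℝ))) f / c)) =
      e (l * (f.coeff 0 / c)) * ∑ m ∈ Finset.Ioc M (2 * M), e (fr d A m) := by
    rw [mul_sum]
    refine sum_congr rfl fun m _ => ?_
    rw [← e_add, value_eq hd f hf2 c m]
    congr 1
    rw [mul_add]
    congr 1
    unfold fr
    rw [hA, mul_sum]
    refine sum_congr rfl fun i _ => ?_
    ring
  rw [h1, norm_mul, norm_mul, norm_e, one_mul, norm_div, norm_one, Complex.norm_natCast, one_div,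
    inv_mul_le_iff₀ hMp]
  exact key

/-- the frequencies `h b ^ n` -/
theorem hat_small (d : ℕ) (hd : 2 ≤ d) : ∃ δ : ℝ, 0 < δ ∧ ∀ B k : ℕ, ∃ M0 : ℕ, ∀ M : ℕ, M0 ≤ M →
    ∀ (f : ℤ[X]) (c : ℕ), 1 ≤ f.natDegree → f.natDegree < d →
    (∀ i, |(f.coeff i : ℝ)| ≤ Real.exp ((log M) ^ (4 / 5 : ℝ))) → 1 ≤ c →
    (c : ℝ) ≤ Real.exp ((log M) ^ (4 / 5 : ℝ)) →
    ∀ (b : ℕ) (n : Fin k → ℕ) (h : Fin k → ℤ), 2 ≤ b → b ≤ B →
      (∀ i, (n i : ℝ) ≤ (log M) ^ (1 + δ)) → ∑ i, h i * (b : ℤ) ^ n i ≠ 0 →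
      (∀ i, |(h i : ℝ)| ≤ Real.exp ((log M) ^ (9 / 10 : ℝ))) →
      ‖hat (unif (Finset.Ioc M (2 * M)) (fun m : ℕ => aeval ((m : ℝ) ^ (1 / (d : ℝ))) f / c))
        (∑ i, h i * (b : ℤ) ^ n i)‖ ≤ Real.exp (-(log M) ^ (9 / 10 : ℝ)) := by
  obtain ⟨δ, hδ, N0, hN0⟩ := hat_all d hd
  refine ⟨δ / 2, by positivity, fun B k => ?_⟩
  obtain ⟨N1, hN1⟩ := eventually_atTop.1 (((((logpow (by linarith : (1 + δ / 2 : ℝ) < 1 + δ)
    (5 * log (max (B : ℝ) 2))).and (logpow (by linarith : (1 : ℝ) < 1 + δ) 20)).and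
    (logpow (by norm_num : (9 / 10 : ℝ) < 1) 1)).and (log_ge (max 1 k))).and
    (eventually_ge_atTop 2))
  refine ⟨max N0 N1, ?_⟩
  intro M hM f c hf1 hf2 hf3 hc1 hc2 b n h hb hbB hn hne hh
  obtain ⟨⟨⟨⟨hb', hc'⟩, hd'⟩, hLk⟩, hM2⟩ := hN1 M (le_of_max_le_right hM)
  refine hN0 M (le_of_max_le_left hM) f c hf1 hf2 hf3 hc1 hc2 _ hne ?_
  have hL1 : 1 ≤ log (M : ℝ) := (le_max_left _ _).trans hLk
  have hkL : (k : ℝ) ≤ log (M : ℝ) := (le_max_right _ _).trans hLk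
  obtain ⟨L, hL⟩ : ∃ L : ℝ, L = log M := ⟨_, rfl⟩
  rw [← hL] at hb' hc' hd' hL1 hkL hn hh ⊢
  rw [Real.rpow_one] at hc' hd'
  have hL0 : 0 < L := by linarith
  have hbR : (2 : ℝ) ≤ b := by exact_mod_cast hb
  have h2 : ∀ i, (b : ℝ) ^ n i ≤ Real.exp (1 / 5 * L ^ (1 + δ)) := by
    intro i
    rw [← Real.exp_log (by positivity : (0 : ℝ) < (b : ℝ) ^ n i), Real.log_pow]
    apply Real.exp_le_exp.2
    have h3 : log b ≤ log (max (B : ℝ) 2) := by
      apply Real.log_le_log (by linarith)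
      refine le_trans ?_ (le_max_left _ _)
      exact_mod_cast hbB
    have h4 : 0 ≤ log (b : ℝ) := Real.log_nonneg (by linarith)
    have h5 : (n i : ℝ) * log b ≤ L ^ (1 + δ / 2) * log (max (B : ℝ) 2) := by
      have := hn i
      gcongr
    linarith
  have h6 : L ≤ Real.exp L := by
    have := Real.add_one_le_exp L
    linarith
  push_cast
  calc |∑ i, (h i : ℝ) * (b : ℝ) ^ n i| ≤ ∑ i, |(h i : ℝ) * (b : ℝ) ^ n i| :=
        Finset.abs_sum_le_sum_abs _ _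
    _ ≤ ∑ _i : Fin k, Real.exp (L ^ (9 / 10 : ℝ)) * Real.exp (1 / 5 * L ^ (1 + δ)) := by
        refine Finset.sum_le_sum fun i _ => ?_
        rw [abs_mul, abs_of_pos (by positivity : (0 : ℝ) < (b : ℝ) ^ n i)]
        have := hh i
        have := h2 i
        gcongr
    _ = k * (Real.exp (L ^ (9 / 10 : ℝ)) * Real.exp (1 / 5 * L ^ (1 + δ))) := by
        rw [Finset.sum_const, Finset.card_univ, Fintype.card_fin, nsmul_eq_mul]
    _ ≤ Real.exp L * (Real.exp (L ^ (9 / 10 : ℝ)) * Real.exp (1 / 5 * L ^ (1 + δ))) := by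
        have := hkL.trans h6
        gcongr
    _ = Real.exp (L + (L ^ (9 / 10 : ℝ) + 1 / 5 * L ^ (1 + δ))) := by
        rw [Real.exp_add, Real.exp_add]
    _ ≤ _ := by
        apply Real.exp_le_exp.2
        linarith

end Pool.Agent.N586.RT
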