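import Pool.Agent.N586.RT.Sm

/-!
# The sums with phases of any size up to `exp ((log N) ^ (1 + δ))`
-/

set_option autoImplicit false

namespace Pool.Agent.N586.RT

open Finset Real Filter
open Pool.Agent.Y933.KD (e norm_e e_add)
open Pool.Agent.Y933.KD.VdC (ev_le)

lemma fact_le (r : ℕ) : ((r.factorial : ℕ) : ℝ) ≤ Real.exp ((r : ℝ) ^ 2) := by
  have h1 : ((r.factorial : ℕ) : ℝ) ≤ (r : ℝ) ^ r := by exact_mod_cast Nat.factorial_le_pow r
  have h2 : (r : ℝ) ≤ Real.exp r := by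
    have := Real.add_one_le_exp (r : ℝ)
    linarith
  calc ((r.factorial : ℕ) : ℝ) ≤ (r : ℝ) ^ r := h1
    _ ≤ (Real.exp r) ^ r := pow_le_pow_left₀ (Nat.cast_nonneg _) h2 r
    _ = Real.exp ((r : ℝ) ^ 2) := by
        rw [← Real.exp_nat_mul]
        congr 1
        ring

/-- the sums with large phases -/
theorem sum_big (d : ℕ) (hd : 2 ≤ d) : ∃ C : ℕ, ∃ N0 : ℕ, ∀ N : ℕ, N0 ≤ N →
    ∀ (A : ℕ → ℝ) (J : ℕ) (κ : ℝ), Top d J N A →
    (N : ℝ) ^ κ = 12 * (|A J| * (2 * (N : ℝ)) ^ ((J : ℝ) / d)) → 1 / 2 ≤ κ → κ ≤ log N →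
    ‖∑ n ∈ Finset.Ioc N (2 * N), e (fr d A n)‖ ≤
      Real.exp (C * (1 + κ) ^ C) * (N : ℝ) ^ (1 - 1 / 10 ^ 10 / (1 + κ) ^ 2 : ℝ) := by
  have hdR : (2 : ℝ) ≤ d := by exact_mod_cast hd
  have hd0 : (0 : ℝ) < d := by linarith
  obtain ⟨C, hC⟩ := zs (96 * d) (by linarith)
  -- large `N`
  have hlim : ∀ᶠ N : ℕ in atTop, 4 * (d : ℝ) ^ 2 * (12 * (1 + log N)) ^ 2 ≤
      (N : ℝ) ^ (3 / (4 * (d : ℝ))) := by
    have ha : (0 : ℝ) < 3 / (16 * d) := by positivity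
    filter_upwards [ev_le (576 * (d : ℝ) ^ 2 * (1 + 1 / (3 / (16 * (d : ℝ)))) ^ 2)
      (3 / (8 * (d : ℝ))) (by positivity), eventually_ge_atTop 1] with N h1 h2
    have hNR : (1 : ℝ) ≤ N := by exact_mod_cast h2
    have hNp : (0 : ℝ) < N := by linarith
    have h3 := Pool.Agent.Y933.KD.VdC.one_add_log_le hNR ha
    have h4 : 0 ≤ 1 + log N := by
      have := Real.log_nonneg hNR
      linarith
    calc 4 * (d : ℝ) ^ 2 * (12 * (1 + log N)) ^ 2 = 576 * (d : ℝ) ^ 2 * (1 + log N) ^ 2 := by ring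
      _ ≤ 576 * (d : ℝ) ^ 2 * ((1 + 1 / (3 / (16 * (d : ℝ)))) * (N : ℝ) ^ (3 / (16 * (d : ℝ)))) ^ 2 := by
          gcongr
      _ = 576 * (d : ℝ) ^ 2 * (1 + 1 / (3 / (16 * (d : ℝ)))) ^ 2 *
          (N : ℝ) ^ (3 / (8 * (d : ℝ))) := by
          rw [mul_pow, ← Real.rpow_natCast ((N : ℝ) ^ (3 / (16 * (d : ℝ)))), ← Real.rpow_mul hNp.le]
          have : 3 / (16 * (d : ℝ)) * ((2 : ℕ) : ℝ) = 3 / (8 * (d : ℝ)) := by
            push_cast
            field_simp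
            norm_num
          rw [this]
          ring
      _ ≤ (N : ℝ) ^ (3 / (8 * (d : ℝ))) * (N : ℝ) ^ (3 / (8 * (d : ℝ))) := by gcongr
      _ = _ := by
          rw [← Real.rpow_add hNp]
          congr 1
          field_simp
          norm_num
  obtain ⟨N1, hN1⟩ := eventually_atTop.1 hlim
  obtain ⟨D, hD⟩ : ∃ D : ℕ, D = C + 290 := ⟨_, rfl⟩
  have hDC : C ≤ D := by omega
  have hD2 : 2 ≤ D := by omega
  have hDR : (D : ℝ) = C + 290 := by rw [hD]; push_cast; ring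
  clear hD
  refine ⟨D, max N1 2, ?_⟩
  intro N hN A J κ h hκ hκ1 hκ2
  have hNN1 := hN1 N (le_of_max_le_left hN)
  have hN2 : 2 ≤ N := le_of_max_le_right hN
  have hNR : (2 : ℝ) ≤ N := by exact_mod_cast hN2
  have hNR1 : (1 : ℝ) ≤ N := by linarith
  have hNp : (0 : ℝ) < N := by linarith
  obtain ⟨r, hr⟩ : ∃ r : ℕ, r = ⌈5 * κ⌉₊ + 5 := ⟨_, rfl⟩
  have hr2 : (r : ℝ) ≤ 12 * (1 + κ) := by
    rw [hr]
    push_cast
    have := Nat.ceil_lt_add_one (a := 5 * κ) (by linarith)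
    linarith
  have hr0 : (0 : ℝ) ≤ r := Nat.cast_nonneg _
  have hsm2 : d * (N : ℝ) ^ (-(3 / (4 * (d : ℝ)))) * (4 * d * (r : ℝ) ^ 2) ≤ 1 := by
    have h3 : 0 < (N : ℝ) ^ (3 / (4 * (d : ℝ))) := by positivity
    rw [Real.rpow_neg hNp.le]
    have e1 : d * ((N : ℝ) ^ (3 / (4 * (d : ℝ))))⁻¹ * (4 * d * (r : ℝ) ^ 2) =
        (4 * (d : ℝ) ^ 2 * (r : ℝ) ^ 2) / (N : ℝ) ^ (3 / (4 * (d : ℝ))) := by
      rw [div_eq_mul_inv]
      ring
    rw [e1, div_le_one h3]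
    refine le_trans ?_ hNN1
    have : (r : ℝ) ≤ 12 * (1 + log N) := by linarith
    gcongr
  have hsm : d * (N : ℝ) ^ (-(3 / (4 * (d : ℝ)))) ≤ 1 := by
    refine le_trans ?_ hsm2
    have h3 : 0 ≤ d * (N : ℝ) ^ (-(3 / (4 * (d : ℝ)))) := by positivity
    have h5 : (5 : ℝ) ≤ r := by exact_mod_cast (by omega : 5 ≤ r)
    have h4 : (1 : ℝ) ≤ 4 * d * (r : ℝ) ^ 2 := by nlinarith
    calc d * (N : ℝ) ^ (-(3 / (4 * (d : ℝ)))) = d * (N : ℝ) ^ (-(3 / (4 * (d : ℝ)))) * 1 := by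
          rw [mul_one]
      _ ≤ _ := by gcongr
  have key := hC N (2 * N) κ (2 * r.factorial) (fun n => e (fr d A n)) (lc d A) hN2 (by omega)
    le_rfl hκ1 (by positivity) (fun n => (norm_e _).le)
    (fun n hn => by
      rw [← hr]
      exact adm_lc h (by omega) hκ hsm hsm2 hn)
    (fun n hn k _ => by
      rw [← hr]
      exact approx_fr h (by omega) hκ hsm hn k)
  refine key.trans (mul_le_mul_of_nonneg_right ?_ (by positivity))
  -- the constants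
  have hκ1' : (1 : ℝ) ≤ 1 + κ := by linarith
  have hX2 : (1 + κ) ^ 2 ≤ (1 + κ) ^ D := pow_le_pow_right₀ hκ1' hD2
  have hXC : (1 + κ) ^ C ≤ (1 + κ) ^ D := pow_le_pow_right₀ hκ1' hDC
  have h3 : (1 : ℝ) ≤ (1 + κ) ^ D := one_le_pow₀ hκ1'
  obtain ⟨X, hX⟩ : ∃ X : ℝ, X = (1 + κ) ^ D := ⟨_, rfl⟩
  rw [← hX] at hX2 hXC h3 ⊢
  have hC0 : (0 : ℝ) ≤ C := Nat.cast_nonneg _
  have h1 : (2 : ℝ) * r.factorial ≤ Real.exp (145 * X) := by
    have h2 : (2 : ℝ) ≤ Real.exp 1 := by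
      have := Real.add_one_le_exp (1 : ℝ)
      linarith
    calc (2 : ℝ) * r.factorial ≤ Real.exp 1 * Real.exp ((r : ℝ) ^ 2) := by
          have := fact_le r
          gcongr
      _ = Real.exp (1 + (r : ℝ) ^ 2) := by rw [← Real.exp_add]
      _ ≤ _ := by
          apply Real.exp_le_exp.2
          have h3 : (r : ℝ) ^ 2 ≤ 144 * (1 + κ) ^ 2 := by
            calc (r : ℝ) ^ 2 ≤ (12 * (1 + κ)) ^ 2 := by gcongr
              _ = _ := by ring
          linarith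
  have h2 : Real.exp (C * (1 + κ) ^ C) ≤ Real.exp (C * X) :=
    Real.exp_le_exp.2 (mul_le_mul_of_nonneg_left hXC hC0)
  have h4 : Real.exp (C * X) ≤ Real.exp ((C + 145) * X) :=
    Real.exp_le_exp.2 (mul_le_mul_of_nonneg_right (by linarith) (by linarith))
  have h5 : Real.exp (145 * X) ≤ Real.exp ((C + 145) * X) :=
    Real.exp_le_exp.2 (mul_le_mul_of_nonneg_right (by linarith) (by linarith))
  have h6 : (2 : ℝ) ≤ Real.exp X := by
    have := Real.add_one_le_exp X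
    linarith
  have h7 : (C + 146) * X ≤ (D : ℝ) * X :=
    mul_le_mul_of_nonneg_right (by rw [hDR]; linarith) (by linarith)
  calc Real.exp (C * (1 + κ) ^ C) + 2 * r.factorial ≤ 2 * Real.exp ((C + 145) * X) := by linarith
    _ ≤ Real.exp X * Real.exp ((C + 145) * X) :=
        mul_le_mul_of_nonneg_right h6 (Real.exp_pos _).le
    _ = Real.exp (X + (C + 145) * X) := by rw [← Real.exp_add]
    _ ≤ Real.exp (D * X) := by
        apply Real.exp_le_exp.2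
        linarith

/-- **the sums with phases of all sizes** -/
theorem sum_all (d : ℕ) (hd : 2 ≤ d) : ∃ δ : ℝ, 0 < δ ∧ δ ≤ 1 / 2 ∧ ∃ N0 : ℕ, ∀ N : ℕ, N0 ≤ N →
    ∀ (A : ℕ → ℝ) (J : ℕ) (κ : ℝ), Top d J N A →
    (N : ℝ) ^ κ = 12 * (|A J| * (2 * (N : ℝ)) ^ ((J : ℝ) / d)) → 1 / (2 * (d : ℝ)) ≤ κ →
    κ ≤ (log N) ^ δ →
    ‖∑ n ∈ Finset.Ioc N (2 * N), e (fr d A n)‖ ≤ N * Real.exp (-(log N) ^ (9 / 10 : ℝ)) := by
  obtain ⟨ρ, hρ, N1, h1⟩ := sum_small d hd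
  obtain ⟨C, N2, h2⟩ := sum_big d hd
  have hδ0 : (0 : ℝ) < 1 / (40 + 2 * C) := by positivity
  have hlog : Tendsto (fun N : ℕ => log (N : ℝ)) atTop atTop :=
    Real.tendsto_log_atTop.comp tendsto_natCast_atTop_atTop
  have hpow : ∀ a b : ℝ, a < b → ∀ K : ℝ, ∀ᶠ N : ℕ in atTop, K * (log N) ^ a ≤ (log N) ^ b := by
    intro a b hab K
    have h3 := ((tendsto_rpow_atTop (sub_pos.2 hab)).comp hlog).eventually_ge_atTop K
    filter_upwards [h3, hlog.eventually_gt_atTop 0] with N h4 h5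
    have h6 : (log (N : ℝ)) ^ b = (log N) ^ (b - a) * (log N) ^ a := by
      rw [← Real.rpow_add h5]
      congr 1
      ring
    rw [h6]
    exact mul_le_mul_of_nonneg_right h4 (by positivity)
  obtain ⟨N3, h3⟩ := eventually_atTop.1 (((((hpow (9 / 10) 1 (by norm_num) (1 / ρ)).and
    (hpow (9 / 10) (19 / 20) (by norm_num) (8 * 10 ^ 10))).and
    (hpow (1 / 2) (9 / 10) (by norm_num) (C * 2 ^ C))).and
    (hlog.eventually_ge_atTop 1)).and (eventually_ge_atTop 2))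
  refine ⟨1 / (40 + 2 * C), hδ0, ?_, max (max N1 N2) N3, ?_⟩
  · apply one_div_le_one_div_of_le (by norm_num)
    have : (0 : ℝ) ≤ C := Nat.cast_nonneg _
    linarith
  intro N hN A J κ h hκ hκ1 hκ2
  have hNN1 : N1 ≤ N := le_of_max_le_left (le_of_max_le_left hN)
  have hNN2 : N2 ≤ N := le_of_max_le_right (le_of_max_le_left hN)
  obtain ⟨⟨⟨⟨ha, hb⟩, hc⟩, hl1⟩, hN2⟩ := h3 N (le_of_max_le_right hN)
  have hNR : (2 : ℝ) ≤ N := by exact_mod_cast hN2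
  have hNp : (0 : ℝ) < N := by linarith
  have hC0 : (0 : ℝ) ≤ C := Nat.cast_nonneg _
  set L : ℝ := log N with hL
  have hL0 : 0 < L := by linarith
  have hexp : ∀ x : ℝ, (N : ℝ) ^ x = Real.exp (x * L) := by
    intro x
    rw [Real.rpow_def_of_pos hNp, hL, mul_comm]
  rcases le_or_gt κ (3 / 2) with hs | hs
  · refine (h1 N hNN1 A J κ h hκ hκ1 hs).trans ?_
    rw [sub_eq_add_neg, Real.rpow_add hNp, Real.rpow_one, hexp]
    refine mul_le_mul_of_nonneg_left (Real.exp_le_exp.2 ?_) hNp.le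
    rw [Real.rpow_one, one_div, inv_mul_le_iff₀ hρ] at ha
    linarith
  · have hκL : κ ≤ L := by
      refine hκ2.trans ?_
      calc L ^ (1 / (40 + 2 * (C : ℝ))) ≤ L ^ (1 : ℝ) := by
            apply Real.rpow_le_rpow_of_exponent_le hl1
            rw [div_le_one (by positivity)]
            linarith
        _ = L := Real.rpow_one _
    refine (h2 N hNN2 A J κ h hκ (by linarith) hκL).trans ?_
    rw [sub_eq_add_neg, Real.rpow_add hNp, Real.rpow_one, hexp, mul_left_comm, ← Real.exp_add]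
    refine mul_le_mul_of_nonneg_left (Real.exp_le_exp.2 ?_) hNp.le
    set Y : ℝ := L ^ (1 / (40 + 2 * (C : ℝ))) with hY
    have hY1 : 1 ≤ Y := Real.one_le_rpow hl1 hδ0.le
    have hκY : 1 + κ ≤ 2 * Y := by linarith
    have h4 : (C : ℝ) * (1 + κ) ^ C ≤ L ^ (9 / 10 : ℝ) := by
      refine le_trans ?_ hc
      calc (C : ℝ) * (1 + κ) ^ C ≤ C * (2 * Y) ^ C := by gcongr
        _ = C * 2 ^ C * Y ^ C := by rw [mul_pow]; ring
        _ ≤ C * 2 ^ C * L ^ (1 / 2 : ℝ) := by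
            refine mul_le_mul_of_nonneg_left ?_ (by positivity)
            rw [hY, ← Real.rpow_natCast, ← Real.rpow_mul hL0.le]
            apply Real.rpow_le_rpow_of_exponent_le hl1
            rw [one_div, inv_mul_le_iff₀ (by positivity)]
            linarith
    have h5 : 2 * L ^ (9 / 10 : ℝ) ≤ 1 / 10 ^ 10 / (1 + κ) ^ 2 * L := by
      have h6 : (1 + κ) ^ 2 ≤ 4 * L ^ (1 / 20 : ℝ) := by
        calc (1 + κ) ^ 2 ≤ (2 * Y) ^ 2 := by gcongr
          _ = 4 * Y ^ 2 := by ring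
          _ ≤ 4 * L ^ (1 / 20 : ℝ) := by
              refine mul_le_mul_of_nonneg_left ?_ (by norm_num)
              rw [hY, ← Real.rpow_natCast, ← Real.rpow_mul hL0.le]
              apply Real.rpow_le_rpow_of_exponent_le hl1
              push_cast
              rw [one_div, inv_mul_le_iff₀ (by positivity)]
              linarith
      rw [div_div, div_mul_eq_mul_div, one_mul, le_div_iff₀ (by positivity)]
      have h7 : L = L ^ (19 / 20 : ℝ) * L ^ (1 / 20 : ℝ) := by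
        rw [← Real.rpow_add hL0]
        norm_num
      calc 2 * L ^ (9 / 10 : ℝ) * (10 ^ 10 * (1 + κ) ^ 2) ≤
          2 * L ^ (9 / 10 : ℝ) * (10 ^ 10 * (4 * L ^ (1 / 20 : ℝ))) := by gcongr
        _ = (8 * 10 ^ 10 * L ^ (9 / 10 : ℝ)) * L ^ (1 / 20 : ℝ) := by ring
        _ ≤ L ^ (19 / 20 : ℝ) * L ^ (1 / 20 : ℝ) := by gcongr
        _ = L := h7.symm
    have h6 : -(1 / 10 ^ 10 / (1 + κ) ^ 2) * L = -(1 / 10 ^ 10 / (1 + κ) ^ 2 * L) := by ring
    rw [h6]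
    linarith

end Pool.Agent.N586.RT
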