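import Pool.Agent.Y933.KD.Clt2

/-!
# The central limit theorem from small Fourier coefficients, with a general saving

This follows `Pool.Agent.Y933.KD.Clt`.
-/

set_option autoImplicit false

namespace Pool.Agent.N586.RT

open Finset Real MeasureTheory Filter Topology ProbabilityTheory
open Pool.Agent.Y933.KD

/-- `k` intervals -/
lemma events_test {k b : ℕ} (hb : 1 ≤ b) {τ : ℝ} (hτ : 0 ≤ τ) (P : Measure ℝ)
    [IsProbabilityMeasure P] (n : Fin k → ℕ)
    (h : ∀ h : Fin k → ℤ, (∀ i, |(h i : ℝ)| ≤ Real.exp τ) → ∑ i, h i * (b : ℤ) ^ n i ≠ 0 →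
      ‖hat P (∑ i, h i * (b : ℤ) ^ n i)‖ ≤ Real.exp (-τ))
    (u v : Fin k → ℝ) (hu : ∀ i, 0 ≤ u i) (hv : ∀ i, v i ≤ 1) :
    |P.real (Ev (fun _ => b) n u v) - Leb.real (Ev (fun _ => b) n u v)| ≤
      (3 ^ k + k * 29) * Real.exp (-(τ / (3 * k + 4))) := by
  have hk : (0 : ℝ) ≤ k := Nat.cast_nonneg k
  set δ : ℝ := τ / (3 * k + 4) with hδdef
  have hδ0 : 0 ≤ δ := by positivity
  have hδτ : δ * (3 * k + 4) = τ := by
    rw [hδdef]
    field_simp
  have hkδ : 0 ≤ k * δ := by positivity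
  set K : ℕ := ⌊Real.exp δ⌋₊ with hKdef
  have hE1 : 1 ≤ Real.exp δ := Real.one_le_exp hδ0
  have hK : 0 < K := Nat.floor_pos.2 hE1
  have hK1 : (K : ℝ) ≤ Real.exp δ := Nat.floor_le (by linarith)
  have hKR : (1 : ℝ) ≤ K := by exact_mod_cast hK
  have hK2 : Real.exp δ ≤ 2 * K := by
    have h1 := Nat.lt_floor_add_one (Real.exp δ)
    rw [← hKdef] at h1
    linarith
  have hK3 : (K : ℝ) ^ 3 ≤ Real.exp (3 * δ) := by
    calc (K : ℝ) ^ 3 ≤ (Real.exp δ) ^ 3 := by gcongr
      _ = Real.exp (3 * δ) := by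
          rw [← Real.exp_nat_mul]
          congr 1
  have hq : ∀ i, ((b : ℤ) ^ n i) ≠ 0 := fun i => by
    have : (b : ℤ) ≠ 0 := by omega
    exact pow_ne_zero _ this
  have key := test hK P Leb hat_Leb (fun i => (b : ℤ) ^ n i) hq (Real.exp (-τ))
    (by
      intro g hg hne
      refine h g (fun i => ?_) hne
      have h1 : |(g i : ℝ)| ≤ (K : ℝ) ^ 3 := by exact_mod_cast hg i
      refine (h1.trans hK3).trans (Real.exp_le_exp.2 (by nlinarith))) (Real.exp_pos _).le
    u v hu hv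
  rw [integral_ind P (fun _ => b) n u v, integral_ind Leb (fun _ => b) n u v] at key
  refine key.trans ?_
  have h1 : (2 * (K : ℝ) ^ 3 + 1) ^ k * Real.exp (-τ) ≤ 3 ^ k * Real.exp (-δ) := by
    have h2 : 2 * (K : ℝ) ^ 3 + 1 ≤ 3 * Real.exp (3 * δ) := by
      have : 1 ≤ Real.exp (3 * δ) := Real.one_le_exp (by linarith)
      linarith
    calc (2 * (K : ℝ) ^ 3 + 1) ^ k * Real.exp (-τ) ≤ (3 * Real.exp (3 * δ)) ^ k * Real.exp (-τ) := by
          gcongr
      _ = 3 ^ k * Real.exp (3 * δ * k + -τ) := by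
          rw [mul_pow, ← Real.exp_nat_mul, mul_assoc, ← Real.exp_add]
          congr 2
          ring
      _ ≤ 3 ^ k * Real.exp (-δ) := by
          refine mul_le_mul_of_nonneg_left (Real.exp_le_exp.2 ?_) (by positivity)
          linarith
  have h2 : 12 / (K : ℝ) ≤ 24 * Real.exp (-δ) := by
    rw [div_le_iff₀ (by linarith), Real.exp_neg]
    have h3 : 0 < Real.exp δ := Real.exp_pos _
    have h4 : 24 * (Real.exp δ)⁻¹ * K = 12 * ((2 * K) / Real.exp δ) := by
      field_simp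
      ring
    rw [h4]
    have h5 : 1 ≤ 2 * (K : ℝ) / Real.exp δ := by rw [le_div_iff₀ h3]; linarith
    linarith
  have h3 : Real.exp (-τ) ≤ Real.exp (-δ) := Real.exp_le_exp.2 (by linarith)
  have h4 : (k : ℝ) * (12 / K + 5 * Real.exp (-τ)) ≤ k * (29 * Real.exp (-δ)) := by
    refine mul_le_mul_of_nonneg_left ?_ hk
    linarith
  linarith

section

variable {b w : ℕ} {G : ℕ → ℝ} {K : ℝ}

/-- characteristic functions -/
theorem char_lim (hb : 1 ≤ b) (hw : 1 ≤ w) (hG : ∀ c, |G c| ≤ K)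
    (hG0 : ∑ c ∈ range (b ^ w), G c = 0)
    (P : ℕ → Measure ℝ) [∀ M, IsProbabilityMeasure (P M)]
    (s N : ℕ → ℕ) (hN : Tendsto N atTop atTop) (Δ : ℕ → ℕ → ℝ)
    (hΔ : ∀ j, ∀ᶠ M : ℕ in atTop, 0 ≤ Δ j M ∧ ∀ (n : Fin j → ℕ) (u v : Fin j → ℝ),
      (∀ i, n i ≤ s M + N M) → (∀ i, 0 ≤ u i) → (∀ i, v i ≤ 1) →
      |(P M).real (Ev (fun _ => b) n u v) - Leb.real (Ev (fun _ => b) n u v)| ≤ Δ j M)
    (hΔl : ∀ j, Tendsto (fun M => (N M : ℝ) ^ j * Δ j M) atTop (𝓝 0)) (t : ℝ) :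
    Tendsto (fun M => ∫ x, Complex.exp ((t * ZN b w G (s M) (N M) x : ℝ) * Complex.I) ∂(P M)) atTop
      (𝓝 (Complex.exp (-((sigma2 b w G : ℝ) : ℂ) * (t : ℂ) ^ 2 / 2))) := by
  have hK : 0 ≤ K := (abs_nonneg _).trans (hG 0)
  refine moments_limit (Q := Leb) (fun M => measurable_ZN _ _ _ _ _)
    (fun M => ⟨_, abs_ZN_le hG (s M) (N M)⟩) ?_ ?_ t ?_
  · -- moments
    intro j
    have hC0 : ∀ᶠ M : ℕ in atTop, |∫ x, ZN b w G (s M) (N M) x ^ j ∂(P M) -
        ∫ x, ZN b w G (s M) (N M) x ^ j ∂Leb| ≤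
        ((b : ℝ) ^ w * K) ^ j * ((N M : ℝ) ^ j * Δ j M) := by
      filter_upwards [hΔ j, hN.eventually_ge_atTop 1] with M h1 h3
      have hNR : (1 : ℝ) ≤ N M := by exact_mod_cast h3
      have hsq : 1 ≤ √(N M : ℝ) := Real.one_le_sqrt.2 hNR
      have h5 := mom_diff (w := w) hb hG (s M) (N M) j (P M) Leb (Δ := Δ j M) h1.1 h1.2
      have h6 : ∀ Q : Measure ℝ, ∫ x, ZN b w G (s M) (N M) x ^ j ∂Q =
          (∫ x, WS b w G (s M) (N M) x ^ j ∂Q) / √(N M : ℝ) ^ j := by
        intro Q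
        unfold ZN
        simp only [div_pow]
        rw [integral_div]
      rw [h6, h6, ← sub_div, abs_div, abs_of_nonneg (by positivity : 0 ≤ √(N M : ℝ) ^ j)]
      have h7 : 1 ≤ √(N M : ℝ) ^ j := one_le_pow₀ hsq
      calc |∫ x, WS b w G (s M) (N M) x ^ j ∂(P M) - ∫ x, WS b w G (s M) (N M) x ^ j ∂Leb| /
            √(N M : ℝ) ^ j
          ≤ |∫ x, WS b w G (s M) (N M) x ^ j ∂(P M) - ∫ x, WS b w G (s M) (N M) x ^ j ∂Leb| :=
            div_le_self (abs_nonneg _) h7
        _ ≤ (N M * b ^ w * K) ^ j * Δ j M := h5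
        _ = _ := by
            rw [mul_pow, mul_pow, mul_pow]
            ring
    have hlim : Tendsto (fun M : ℕ => ((b : ℝ) ^ w * K) ^ j * ((N M : ℝ) ^ j * Δ j M)) atTop
        (𝓝 0) := by
      have h3 := (hΔl j).const_mul (((b : ℝ) ^ w * K) ^ j)
      simpa using h3
    exact squeeze_zero_norm' (by simpa only [Real.norm_eq_abs] using hC0) hlim
  · -- exponential moments
    intro r
    refine ⟨exp (|r| * (w * K)) * exp (K ^ 2 * (r * w) ^ 2 / 2), ?_⟩
    filter_upwards [hN.eventually_ge_atTop 1] with M hM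
    have h1 : ∀ x, exp (r * ZN b w G (s M) (N M) x) =
        (fun y => exp (r * ((∑ n ∈ range (N M), Xw b w G n y) / √(N M : ℝ)))) (Tb b (s M) x) := by
      intro x
      simp only
      unfold ZN
      rw [WS_eq]
    simp only [h1]
    rw [invariance_real hb (h := fun y => exp (r * ((∑ n ∈ range (N M), Xw b w G n y) /
      √(N M : ℝ)))) ?_ (C := exp (|r| * (((range (N M)).card : ℝ) * K / √(N M : ℝ)))) ?_]
    · exact exp_norm hb hw hG hG0 r (N M) hM
    · exact Real.measurable_exp.comp (((Finset.measurable_fun_sum _ fun j _ =>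
        measurable_Xw _ _ _ _).div_const _).const_mul _)
    · intro y
      rw [abs_of_pos (exp_pos _)]
      apply exp_le_exp.2
      refine (le_abs_self _).trans ?_
      rw [abs_mul, abs_div, abs_of_nonneg (Real.sqrt_nonneg _)]
      have := abs_sum_Xw_le (b := b) (w := w) hG (range (N M)) y
      gcongr
  · -- the characteristic function under Lebesgue measure
    have h1 := (clt_Leb hb hw hG hG0 t).comp hN
    refine h1.congr fun M => ?_
    simp only [Function.comp_apply]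
    have h2 : ∀ x, Complex.exp ((t * ZN b w G (s M) (N M) x : ℝ) * Complex.I) =
        (fun y => Complex.exp ((t * ((∑ n ∈ range (N M), Xw b w G n y) / √(N M : ℝ)) : ℝ) *
          Complex.I)) (Tb b (s M) x) := by
      intro x
      simp only
      unfold ZN
      rw [WS_eq]
    simp only [h2]
    rw [invariance hb (h := fun y => Complex.exp ((t * ((∑ n ∈ range (N M), Xw b w G n y) /
      √(N M : ℝ)) : ℝ) * Complex.I)) ?_ (C := 1) ?_]
    · exact Complex.measurable_exp.comp ((Complex.measurable_ofReal.comp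
        (((Finset.measurable_fun_sum _ fun j _ => measurable_Xw _ _ _ _).div_const _).const_mul
          t)).mul_const _)
    · intro y
      rw [Complex.norm_exp_ofReal_mul_I]

/-- **the central limit theorem** -/
theorem clt_lim (hb : 1 ≤ b) (hw : 1 ≤ w) (hG : ∀ c, |G c| ≤ K)
    (hG0 : ∑ c ∈ range (b ^ w), G c = 0) (hσ : 0 < sigma2 b w G)
    (P : ℕ → Measure ℝ) [∀ M, IsProbabilityMeasure (P M)]
    (s N : ℕ → ℕ) (hN : Tendsto N atTop atTop) (Δ : ℕ → ℕ → ℝ)
    (hΔ : ∀ j, ∀ᶠ M : ℕ in atTop, 0 ≤ Δ j M ∧ ∀ (n : Fin j → ℕ) (u v : Fin j → ℝ),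
      (∀ i, n i ≤ s M + N M) → (∀ i, 0 ≤ u i) → (∀ i, v i ≤ 1) →
      |(P M).real (Ev (fun _ => b) n u v) - Leb.real (Ev (fun _ => b) n u v)| ≤ Δ j M)
    (hΔl : ∀ j, Tendsto (fun M => (N M : ℝ) ^ j * Δ j M) atTop (𝓝 0)) (a : ℝ) :
    Tendsto (fun M => (P M).real {x | WS b w G (s M) (N M) x ≤ a * √(sigma2 b w G * N M)}) atTop
      (𝓝 ((gaussianReal 0 1).real (Set.Iic a))) := by
  set σ := √(sigma2 b w G) with hσdef
  have hσ0 : 0 < σ := Real.sqrt_pos.2 hσ
  have hσ2 : σ ^ 2 = sigma2 b w G := Real.sq_sqrt hσ.le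
  -- the laws of the normalised sums
  have hm : ∀ M, Measurable (fun x => ZN b w G (s M) (N M) x / σ) := fun M =>
    (measurable_ZN _ _ _ _ _).div_const _
  set μ : ℕ → ProbabilityMeasure ℝ := fun M =>
    ⟨(P M).map (fun x => ZN b w G (s M) (N M) x / σ),
      Measure.isProbabilityMeasure_map (hm M).aemeasurable⟩ with hμ
  set γ : ProbabilityMeasure ℝ := ⟨gaussianReal 0 1, inferInstance⟩ with hγ
  have hconv : Tendsto μ atTop (𝓝 γ) := by
    refine ProbabilityMeasure.tendsto_of_tendsto_charFun fun t => ?_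
    have h1 := char_lim hb hw hG hG0 P s N hN Δ hΔ hΔl (t / σ)
    have h2 : charFun (γ : Measure ℝ) t =
        Complex.exp (-((sigma2 b w G : ℝ) : ℂ) * ((t / σ : ℝ) : ℂ) ^ 2 / 2) := by
      change charFun (gaussianReal 0 1) t = _
      rw [charFun_gaussianReal]
      congr 1
      rw [← hσ2]
      have : (σ : ℂ) ≠ 0 := by exact_mod_cast hσ0.ne'
      push_cast
      field_simp
      ring
    rw [h2]
    refine h1.congr fun M => ?_
    change _ = charFun ((P M).map (fun x => ZN b w G (s M) (N M) x / σ)) t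
    rw [charFun_apply_real, integral_map (hm M).aemeasurable (by fun_prop)]
    congr 1
    ext x
    congr 1
    have : (σ : ℂ) ≠ 0 := by exact_mod_cast hσ0.ne'
    push_cast
    field_simp
  have hfr : γ (frontier (Set.Iic a)) = 0 := by
    rw [frontier_Iic]
    have h1 : (gaussianReal 0 1) {a} = 0 := by
      have := noAtoms_gaussianReal (μ := 0) (v := 1) one_ne_zero
      exact measure_singleton a
    have h2 : ((γ {a} : NNReal) : ENNReal) = 0 := by
      rw [ProbabilityMeasure.ennreal_coeFn_eq_coeFn_toMeasure]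
      exact h1
    exact_mod_cast h2
  have h3 := ProbabilityMeasure.tendsto_measure_of_null_frontier_of_tendsto hconv hfr
  have h4 : Tendsto (fun M => ((μ M (Set.Iic a) : NNReal) : ℝ)) atTop
      (𝓝 ((γ (Set.Iic a) : NNReal) : ℝ)) := (NNReal.continuous_coe.tendsto _).comp h3
  refine h4.congr' ?_
  filter_upwards [hN.eventually_ge_atTop 1] with M hM
  have hNR : (0 : ℝ) < N M := by exact_mod_cast hM
  change ((P M).map (fun x => ZN b w G (s M) (N M) x / σ)).real (Set.Iic a) = _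
  rw [map_measureReal_apply (hm M) measurableSet_Iic]
  congr 1
  ext x
  simp only [Set.mem_preimage, Set.mem_Iic, Set.mem_ofPred_eq]
  unfold ZN
  rw [Real.sqrt_mul hσ.le, ← hσdef, div_div, div_le_iff₀ (by positivity)]
  constructor
  · intro h; linarith
  · intro h; linarith

end

end Pool.Agent.N586.RT
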