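import Pool.Agent.N586.RT.Hat

/-!
# Almost all roots `m ^ (1 / d)` are normal up to `(log m) ^ (1 + δ)` digits
-/

set_option autoImplicit false

namespace Pool.Agent.N586.RT

open Finset Real Filter Polynomial MeasureTheory
open Pool.Agent.Y933.KD

/-- the integral polynomials of degree at most `n` with coefficients at most `T` -/
noncomputable def Fs (n : ℕ) (T : ℤ) : Finset ℤ[X] :=
  open Classical in (Fintype.piFinset fun _ : Fin (n + 1) => Finset.Icc (-T) T).image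
    fun v => ∑ i : Fin (n + 1), C (v i) * X ^ (i : ℕ)

lemma mem_Fs {n : ℕ} {T : ℤ} {f : ℤ[X]} (hf : f.natDegree ≤ n) (hT : ∀ i, |f.coeff i| ≤ T) :
    f ∈ Fs n T := by
  classical
  unfold Fs
  rw [Finset.mem_image]
  refine ⟨fun i => f.coeff i, ?_, ?_⟩
  · rw [Fintype.mem_piFinset]
    intro i
    rw [Finset.mem_Icc, ← abs_le]
    exact hT i
  · rw [Fin.sum_univ_eq_sum_range (fun i => C (f.coeff i) * X ^ i) (n + 1)]
    exact (f.as_sum_range_C_mul_X_pow' (by omega)).symm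

lemma card_Fs (n : ℕ) {T : ℤ} (hT : 0 ≤ T) : ((Fs n T).card : ℝ) ≤ (2 * (T : ℝ) + 1) ^ (n + 1) := by
  classical
  have h1 : (Fs n T).card ≤ (Finset.Icc (-T) T).card ^ (n + 1) := by
    unfold Fs
    refine Finset.card_image_le.trans ?_
    rw [Fintype.card_piFinset_const]
  have h2 : (((Finset.Icc (-T) T).card : ℕ) : ℝ) = 2 * (T : ℝ) + 1 := by
    have h3 : (((Finset.Icc (-T) T).card : ℕ) : ℤ) = 2 * T + 1 := by
      rw [Int.card_Icc, Int.toNat_of_nonneg (by omega)]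
      ring
    exact_mod_cast h3
  calc ((Fs n T).card : ℝ) ≤ (((Finset.Icc (-T) T).card ^ (n + 1) : ℕ) : ℝ) := by exact_mod_cast h1
    _ = _ := by push_cast; rw [h2]

open Classical in
/-- all words of at most `w` digits have the right frequency in all windows of the first `L` digits
of `y` in the bases up to `B`, up to `ε N + E` -/
def Nw (B w : ℕ) (L ε E : ℝ) (y : ℝ) : Prop :=
  ∀ b k j s N : ℕ, 2 ≤ b → b ≤ B → 1 ≤ k → k ≤ w → j < b ^ k → (s : ℝ) + N ≤ L →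
    |(((Finset.range N).filter (fun i => wd b k (s + i) y = j)).card : ℝ) - N / (b : ℝ) ^ k| ≤
      ε * N + E

open Classical in
theorem fin (d : ℕ) (hd : 2 ≤ d) : ∃ δ : ℝ, 0 < δ ∧ ∀ (B w : ℕ) (ε : ℝ), 0 < ε →
    ∃ M0 : ℕ, ∀ M : ℕ, M0 ≤ M →
    (((Finset.Ioc M (2 * M)).filter (fun m : ℕ => ¬ ∀ (f : ℤ[X]) (c : ℕ), 1 ≤ f.natDegree →
      f.natDegree < d → (∀ i, |(f.coeff i : ℝ)| ≤ Real.exp ((log M) ^ (4 / 5 : ℝ))) → 1 ≤ c →
      (c : ℝ) ≤ Real.exp ((log M) ^ (4 / 5 : ℝ)) →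
      Nw B w ((log M) ^ (1 + δ)) ε ((log M) ^ (9 / 10 : ℝ))
        (aeval ((m : ℝ) ^ (1 / (d : ℝ))) f / c))).card : ℝ) ≤
      M * Real.exp (-(log M) ^ (4 / 5 : ℝ)) := by
  obtain ⟨δ, hδ, hB⟩ := hat_small d hd
  refine ⟨δ, hδ, fun B w ε hε => ?_⟩
  obtain ⟨M1, hM1⟩ := hB B 1
  obtain ⟨c0, hc0, τ0, hτ0⟩ := block (B := B) (w := max w 1) (le_max_right _ _) hε
  have hdR : (2 : ℝ) ≤ d := by exact_mod_cast hd
  obtain ⟨M2, hM2⟩ := eventually_atTop.1 ((((((logpow (by norm_num : (0 : ℝ) < 9 / 10) (τ0)).and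
    (logpow (by norm_num : (4 / 5 : ℝ) < 9 / 10) ((2 * d + 3 + δ) / c0 * 1))).and
    (log_ge 1)).and (log_ge 2)).and (eventually_ge_atTop 2)).and
    (logpow (by norm_num : (0 : ℝ) < 4 / 5) 2))
  -- `log log M ≤ (log M) ^ (4 / 5)`
  have hll : ∀ᶠ M : ℕ in atTop, log (log M) ≤ (log M) ^ (4 / 5 : ℝ) := by
    have hlog : Tendsto (fun N : ℕ => log (N : ℝ)) atTop atTop :=
      Real.tendsto_log_atTop.comp tendsto_natCast_atTop_atTop
    have h1 := (isLittleO_log_rpow_atTop (by norm_num : (0 : ℝ) < 4 / 5)).bound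
      (by norm_num : (0 : ℝ) < 1)
    filter_upwards [hlog.eventually h1, log_ge 1] with M h2 h3
    rw [one_mul, Real.norm_eq_abs, Real.norm_eq_abs] at h2
    rw [abs_of_nonneg (Real.rpow_nonneg (by linarith) _)] at h2
    exact (le_abs_self _).trans h2
  obtain ⟨M3, hM3⟩ := eventually_atTop.1 hll
  refine ⟨max (max M1 M2) M3, fun M hM => ?_⟩
  have hMM1 : M1 ≤ M := le_of_max_le_left (le_of_max_le_left hM)
  obtain ⟨⟨⟨⟨⟨ha, hb⟩, hL1⟩, hL2⟩, hM2'⟩, hv⟩ := hM2 M (le_of_max_le_right (le_of_max_le_left hM))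
  have hc := hM3 M (le_of_max_le_right hM)
  have hhat := hM1 M hMM1
  have hMR : (2 : ℝ) ≤ M := by exact_mod_cast hM2'
  have hMp : (0 : ℝ) < M := by linarith
  obtain ⟨L, hL⟩ : ∃ L : ℝ, L = log M := ⟨_, rfl⟩
  rw [← hL] at ha hb hL1 hL2 hc hhat hv ⊢
  rw [Real.rpow_zero, mul_one] at ha hv
  have hL0 : 0 < L := by linarith
  obtain ⟨V, hV⟩ : ∃ V : ℝ, V = Real.exp (L ^ (4 / 5 : ℝ)) := ⟨_, rfl⟩
  rw [← hV] at hhat ⊢
  have hV1 : 1 ≤ V := by
    rw [hV]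
    exact Real.one_le_exp (by positivity)
  have h3V : 3 * V ≤ V ^ 2 := by
    have h1 : (3 : ℝ) ≤ V := by
      rw [hV]
      have := Real.add_one_le_exp (L ^ (4 / 5 : ℝ))
      linarith
    nlinarith
  set τ : ℝ := L ^ (9 / 10 : ℝ) with hτ
  set T : ℝ := L ^ (1 + δ) with hT
  have hT1 : 1 ≤ T := Real.one_le_rpow hL1 (by positivity)
  have hne : (Finset.Ioc M (2 * M)).Nonempty := by
    rw [Finset.nonempty_Ioc]
    omega
  have hcardI : ((Finset.Ioc M (2 * M)).card : ℝ) = M := by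
    rw [Nat.card_Ioc]
    congr 1
    omega
  set S : Finset (ℤ[X] × ℕ) := (Fs (d - 1) ⌊V⌋) ×ˢ (Finset.Icc 1 ⌊V⌋₊) with hS
  set bad : ℤ[X] × ℕ → Finset ℕ := fun z => (Finset.Ioc M (2 * M)).filter (fun m : ℕ =>
    1 ≤ z.1.natDegree ∧ z.1.natDegree < d ∧ (∀ i, |(z.1.coeff i : ℝ)| ≤ V) ∧ 1 ≤ z.2 ∧
      (z.2 : ℝ) ≤ V ∧ ¬ Nw B w T ε τ (aeval ((m : ℝ) ^ (1 / (d : ℝ))) z.1 / z.2)) with hbad
  have hsub : (Finset.Ioc M (2 * M)).filter (fun m : ℕ => ¬ ∀ (f : ℤ[X]) (c : ℕ), 1 ≤ f.natDegree →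
      f.natDegree < d → (∀ i, |(f.coeff i : ℝ)| ≤ V) → 1 ≤ c → (c : ℝ) ≤ V →
      Nw B w T ε τ (aeval ((m : ℝ) ^ (1 / (d : ℝ))) f / c)) ⊆ S.biUnion bad := by
    intro m hm
    rw [Finset.mem_filter] at hm
    obtain ⟨hm1, hm2⟩ := hm
    push Not at hm2
    obtain ⟨f, c, hf1, hf2, hf3, hc1, hc2, hno⟩ := hm2
    rw [Finset.mem_biUnion]
    refine ⟨(f, c), ?_, ?_⟩
    · rw [hS, Finset.mem_product]
      constructor
      · refine mem_Fs (by simp only; omega) fun i => Int.le_floor.2 ?_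
        push_cast
        exact hf3 i
      · rw [Finset.mem_Icc]
        exact ⟨hc1, Nat.le_floor hc2⟩
    · rw [hbad]
      simp only [Finset.mem_filter]
      exact ⟨hm1, hf1, hf2, hf3, hc1, hc2, hno⟩
  have hone : ∀ z ∈ S, ((bad z).card : ℝ) ≤ M * (T * Real.exp (-(c0 * τ))) := by
    intro z _
    by_cases hz : 1 ≤ z.1.natDegree ∧ z.1.natDegree < d ∧ (∀ i, |(z.1.coeff i : ℝ)| ≤ V) ∧
        1 ≤ z.2 ∧ (z.2 : ℝ) ≤ V
    · obtain ⟨hz1, hz2, hz3, hz4, hz5⟩ := hz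
      obtain ⟨U, hU, hPU, hx⟩ := hτ0 τ (by rw [hτ]; exact ha) T hT1
        (unif (Finset.Ioc M (2 * M)) (fun m : ℕ => aeval ((m : ℝ) ^ (1 / (d : ℝ))) z.1 / z.2))
        (unif_prob hne _)
        (fun b n h hb1 hb2 hn hh hh2 => by
          have hk := hhat z.1 z.2 hz1 hz2 hz3 hz4 hz5 b (fun _ => n) (fun _ => h) hb1 hb2
            (fun _ => hn) (by
              rw [Fin.sum_univ_one]
              exact mul_ne_zero hh (pow_ne_zero _ (by omega))) (fun _ => hh2)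
          rwa [Fin.sum_univ_one] at hk)
      rw [real_unif _ _ hU, hcardI, div_le_iff₀ hMp, mul_comm _ (M : ℝ)] at hPU
      refine le_trans ?_ hPU
      refine Nat.cast_le.2 (Finset.card_le_card fun m hm => ?_)
      rw [hbad] at hm
      simp only [Finset.mem_filter] at hm
      rw [Finset.mem_filter]
      refine ⟨hm.1, ?_⟩
      by_contra hmU
      apply hm.2.2.2.2.2.2
      intro b k j s N hb hbB hk hkw hj hsN
      have h2 := hx _ hmU b k j s N hb hbB hk (hkw.trans (le_max_left _ _)) hj hsN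
      rw [WS_ci (by omega)] at h2
      exact h2
    · have h1 : bad z = ∅ := by
        rw [hbad]
        simp only
        rw [Finset.filter_eq_empty_iff]
        rintro p _ ⟨h2, h3, h4, h5, h6, _⟩
        exact hz ⟨h2, h3, h4, h5, h6⟩
      rw [h1, Finset.card_empty, Nat.cast_zero]
      positivity
  have hScard : ((S.card : ℕ) : ℝ) ≤ V ^ (2 * d + 1) := by
    rw [hS, Finset.card_product, Nat.card_Icc, Nat.add_sub_cancel]
    push_cast
    have h1 := card_Fs (d - 1) (Int.floor_nonneg.2 (by linarith : (0 : ℝ) ≤ V))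
    have e1 : d - 1 + 1 = d := by omega
    rw [e1] at h1
    have h2 := Nat.floor_le (by linarith : (0 : ℝ) ≤ V)
    have h3 := Int.floor_le V
    have h0 : (0 : ℝ) ≤ (⌊V⌋ : ℝ) := by exact_mod_cast Int.floor_nonneg.2 (by linarith : (0 : ℝ) ≤ V)
    calc ((Fs (d - 1) ⌊V⌋).card : ℝ) * (⌊V⌋₊ : ℝ) ≤ (2 * (⌊V⌋ : ℝ) + 1) ^ d * V := by
          gcongr
      _ ≤ (V ^ 2) ^ d * V := by
          have : 2 * (⌊V⌋ : ℝ) + 1 ≤ V ^ 2 := by linarith
          gcongr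
      _ = _ := by ring
  have hfin : V ^ (2 * d + 1) * (T * Real.exp (-(c0 * τ))) ≤ Real.exp (-L ^ (4 / 5 : ℝ)) := by
    have e1 : V ^ (2 * d + 1) = Real.exp ((2 * d + 1) * L ^ (4 / 5 : ℝ)) := by
      rw [hV, ← Real.exp_nat_mul]
      congr 1
      push_cast
      ring
    have e2 : T = Real.exp ((1 + δ) * log L) := by
      rw [hT, Real.rpow_def_of_pos hL0]
      congr 1
      ring
    rw [e1, e2, ← Real.exp_add, ← Real.exp_add]
    apply Real.exp_le_exp.2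
    have h1 : (1 + δ) * log L ≤ (1 + δ) * L ^ (4 / 5 : ℝ) := by gcongr
    have h2 : (2 * d + 3 + δ) * L ^ (4 / 5 : ℝ) ≤ c0 * τ := by
      have h3 : (2 * d + 3 + δ) * L ^ (4 / 5 : ℝ) =
          c0 * ((2 * d + 3 + δ) / c0 * 1 * L ^ (4 / 5 : ℝ)) := by
        field_simp
      rw [h3, hτ]
      exact mul_le_mul_of_nonneg_left hb hc0.le
    linarith
  calc _ ≤ ((S.biUnion bad).card : ℝ) := by exact_mod_cast Finset.card_le_card hsub
    _ ≤ ∑ z ∈ S, ((bad z).card : ℝ) := by exact_mod_cast Finset.card_biUnion_le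
    _ ≤ ∑ _z ∈ S, M * (T * Real.exp (-(c0 * τ))) := sum_le_sum hone
    _ = (S.card : ℝ) * (M * (T * Real.exp (-(c0 * τ)))) := by rw [sum_const, nsmul_eq_mul]
    _ ≤ V ^ (2 * d + 1) * (M * (T * Real.exp (-(c0 * τ)))) := by gcongr
    _ = M * (V ^ (2 * d + 1) * (T * Real.exp (-(c0 * τ)))) := by ring
    _ ≤ M * Real.exp (-L ^ (4 / 5 : ℝ)) := by gcongr

end Pool.Agent.N586.RT
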