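import Pool.Agent.N586.RT.Fin
import Pool.Agent.N586.RT.Cl

/-!
# The central limit theorem for the digits of the roots `m ^ (1 / d)`
-/

set_option autoImplicit false

namespace Pool.Agent.N586.RT

open Finset Real Filter Polynomial MeasureTheory Topology ProbabilityTheory
open Pool.Agent.Y933.KD

/-- the numbers `f(m ^ (1 / d)) / c` -/
noncomputable def el (d : ℕ) (f : ℤ[X]) (c m : ℕ) : ℝ := aeval ((m : ℝ) ^ (1 / (d : ℝ))) f / c

/-- the uniform measures, with a convention for `M = 0` -/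
noncomputable def Pm (d : ℕ) (f : ℕ → ℤ[X]) (c : ℕ → ℕ) (M : ℕ) : Measure ℝ :=
  if M = 0 then Leb else unif (Finset.Ioc M (2 * M)) (el d (f M) (c M))

instance (d : ℕ) (f : ℕ → ℤ[X]) (c : ℕ → ℕ) (M : ℕ) : IsProbabilityMeasure (Pm d f c M) := by
  unfold Pm
  split_ifs with h
  · infer_instance
  · refine unif_prob ?_ _
    rw [Finset.nonempty_Ioc]
    omega

/-- the admissible pairs -/
def Ok (d : ℕ) (M : ℕ) (f : ℤ[X]) (c : ℕ) : Prop :=
  1 ≤ f.natDegree ∧ f.natDegree < d ∧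
    (∀ i, |(f.coeff i : ℝ)| ≤ Real.exp ((log M) ^ (4 / 5 : ℝ))) ∧ 1 ≤ c ∧
    (c : ℝ) ≤ Real.exp ((log M) ^ (4 / 5 : ℝ))

open Classical in
/-- **both theorems**, with the same `δ` -/
theorem both (d : ℕ) (hd : 2 ≤ d) : ∃ δ : ℝ, 0 < δ ∧
    (∀ (B w : ℕ) (ε : ℝ), 0 < ε → ∃ M0 : ℕ, ∀ M : ℕ, M0 ≤ M →
      (((Finset.Ioc M (2 * M)).filter (fun m : ℕ => ¬ ∀ (f : ℤ[X]) (c : ℕ), 1 ≤ f.natDegree →
        f.natDegree < d → (∀ i, |(f.coeff i : ℝ)| ≤ Real.exp ((log M) ^ (4 / 5 : ℝ))) → 1 ≤ c →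
        (c : ℝ) ≤ Real.exp ((log M) ^ (4 / 5 : ℝ)) →
        Nw B w ((log M) ^ (1 + δ)) ε ((log M) ^ (9 / 10 : ℝ))
          (aeval ((m : ℝ) ^ (1 / (d : ℝ))) f / c))).card : ℝ) ≤
        M * Real.exp (-(log M) ^ (4 / 5 : ℝ))) ∧
    (∀ (b w : ℕ) (F : ℕ → ℝ), 2 ≤ b → 1 ≤ w →
      0 < cv b w F 0 + 2 * ∑ h ∈ Finset.Ico 1 w, cv b w F h →
      ∀ (f : ℕ → ℤ[X]) (c s N : ℕ → ℕ), (∀ᶠ M : ℕ in atTop, Ok d M (f M) (c M)) →
      Tendsto N atTop atTop → (∀ᶠ M : ℕ in atTop, (s M : ℝ) + N M ≤ (log M) ^ (1 + δ)) →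
      ∀ a : ℝ, Tendsto (fun M : ℕ => (((Finset.Ioc M (2 * M)).filter (fun m : ℕ =>
        ∑ i ∈ range (N M), F (wd b w (s M + i) (el d (f M) (c M) m)) - N M * mn b w F ≤
          a * √((cv b w F 0 + 2 * ∑ h ∈ Finset.Ico 1 w, cv b w F h) * N M))).card : ℝ) / M) atTop
        (𝓝 ((gaussianReal 0 1).real (Set.Iic a)))) := by
  obtain ⟨δ1, hδ1, h1⟩ := fin d hd
  obtain ⟨δ2, hδ2, h2⟩ := hat_small d hd
  have hlog : Tendsto (fun N : ℕ => log (N : ℝ)) atTop atTop :=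
    Real.tendsto_log_atTop.comp tendsto_natCast_atTop_atTop
  set δ : ℝ := min δ1 δ2 with hδdef
  have hδ : 0 < δ := lt_min hδ1 hδ2
  have hmono : ∀ δ' : ℝ, δ ≤ δ' → ∀ᶠ M : ℕ in atTop, (log M) ^ (1 + δ) ≤ (log M) ^ (1 + δ') := by
    intro δ' h
    filter_upwards [log_ge 1] with M hM
    exact Real.rpow_le_rpow_of_exponent_le hM (by linarith)
  refine ⟨δ, hδ, ?_, ?_⟩
  · intro B w ε hε
    obtain ⟨M0, hM0⟩ := h1 B w ε hε
    obtain ⟨M1, hM1⟩ := eventually_atTop.1 (hmono δ1 (min_le_left _ _))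
    refine ⟨max M0 M1, fun M hM => ?_⟩
    refine le_trans (Nat.cast_le.2 (Finset.card_le_card fun m hm => ?_))
      (hM0 M (le_of_max_le_left hM))
    rw [Finset.mem_filter] at hm ⊢
    refine ⟨hm.1, fun hcon => hm.2 fun f c hf1 hf2 hf3 hc1 hc2 => ?_⟩
    intro b k j s N hb hbB hk hkw hj hsN
    exact hcon f c hf1 hf2 hf3 hc1 hc2 b k j s N hb hbB hk hkw hj
      (hsN.trans (hM1 M (le_of_max_le_right hM)))
  · intro b w F hb hw hσ f c s N hok hN hsN a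
    have hb1 : 1 ≤ b := by omega
    have hΔ : ∀ j : ℕ, ∀ᶠ M : ℕ in atTop,
        0 ≤ (3 ^ j + j * 29) * Real.exp (-((log M) ^ (9 / 10 : ℝ) / (3 * j + 4))) ∧
        ∀ (n : Fin j → ℕ) (u v : Fin j → ℝ),
        (∀ i, n i ≤ s M + N M) → (∀ i, 0 ≤ u i) → (∀ i, v i ≤ 1) →
        |(Pm d f c M).real (Ev (fun _ => b) n u v) - Leb.real (Ev (fun _ => b) n u v)| ≤
          (3 ^ j + j * 29) * Real.exp (-((log M) ^ (9 / 10 : ℝ) / (3 * j + 4))) := by
      intro j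
      obtain ⟨M1, hM1⟩ := h2 b j
      filter_upwards [hok, hsN, hmono δ2 (min_le_right _ _), log_ge 1, eventually_ge_atTop M1,
        eventually_ge_atTop 1] with M g1 g2 g3 g4 g5 g6
      refine ⟨by positivity, fun n u v hn hu hv => ?_⟩
      have hτ : 0 ≤ (log (M : ℝ)) ^ (9 / 10 : ℝ) := Real.rpow_nonneg (by linarith) _
      refine events_test hb1 hτ (Pm d f c M) n (fun h hh hne => ?_) u v hu hv
      have hP : Pm d f c M = unif (Finset.Ioc M (2 * M)) (el d (f M) (c M)) := by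
        unfold Pm
        rw [if_neg (by omega)]
      rw [hP]
      refine hM1 M g5 (f M) (c M) g1.1 g1.2.1 g1.2.2.1 g1.2.2.2.1 g1.2.2.2.2 b n h hb le_rfl
        (fun i => ?_) hne hh
      refine le_trans ?_ (g2.trans g3)
      exact_mod_cast hn i
    have hΔl : ∀ j : ℕ, Tendsto (fun M : ℕ => (N M : ℝ) ^ j *
        ((3 ^ j + j * 29) * Real.exp (-((log M) ^ (9 / 10 : ℝ) / (3 * j + 4))))) atTop (𝓝 0) := by
      intro j
      have hc : (0 : ℝ) < 1 / (3 * j + 4) := by positivity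
      have t1 := (tendsto_rpow_mul_exp_neg_mul_atTop_nhds_zero (10 / 9 * ((1 + δ) * j))
        (1 / (3 * (j : ℝ) + 4)) hc)
      have t2 := (t1.comp ((tendsto_rpow_atTop (by norm_num : (0 : ℝ) < 9 / 10)).comp
        hlog)).const_mul ((3 : ℝ) ^ j + j * 29)
      rw [mul_zero] at t2
      refine squeeze_zero' (Eventually.of_forall fun M => by positivity) ?_ t2
      filter_upwards [hsN, log_ge 1] with M g2 g4
      have hL0 : 0 < log (M : ℝ) := by linarith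
      simp only [Function.comp_apply]
      have e1 : ((log (M : ℝ)) ^ (9 / 10 : ℝ)) ^ (10 / 9 * ((1 + δ) * j)) =
          ((log (M : ℝ)) ^ (1 + δ)) ^ j := by
        rw [← Real.rpow_mul hL0.le, ← Real.rpow_natCast ((log (M : ℝ)) ^ (1 + δ)),
          ← Real.rpow_mul hL0.le]
        congr 1
        ring
      rw [e1]
      have e2 : -(1 / (3 * (j : ℝ) + 4)) * (log (M : ℝ)) ^ (9 / 10 : ℝ) =
          -((log (M : ℝ)) ^ (9 / 10 : ℝ) / (3 * j + 4)) := by ring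
      rw [e2]
      have g3 : (N M : ℝ) ≤ (log (M : ℝ)) ^ (1 + δ) := by
        have : (0 : ℝ) ≤ s M := Nat.cast_nonneg _
        linarith
      calc (N M : ℝ) ^ j * ((3 ^ j + j * 29) *
            Real.exp (-((log M) ^ (9 / 10 : ℝ) / (3 * j + 4)))) ≤
          ((log (M : ℝ)) ^ (1 + δ)) ^ j * ((3 ^ j + j * 29) *
            Real.exp (-((log M) ^ (9 / 10 : ℝ) / (3 * j + 4)))) := by gcongr
        _ = _ := by ring
    have key := clt_lim (b := b) (w := w) (G := cen b w F) hb1 hw (cen_le b w F) (cen_sum hb1 F)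
      (by rw [sigma2_cen hb1]; exact hσ) (Pm d f c) s N hN
      (fun j M => (3 ^ j + j * 29) * Real.exp (-((log M) ^ (9 / 10 : ℝ) / (3 * j + 4)))) hΔ hΔl a
    refine key.congr' ?_
    filter_upwards [eventually_ge_atTop 1] with M hM
    have hmeas : MeasurableSet {z | WS b w (cen b w F) (s M) (N M) z ≤
        a * √(sigma2 b w (cen b w F) * N M)} :=
      measurableSet_le (measurable_WS _ _ _ _ _) measurable_const
    have hP : Pm d f c M = unif (Finset.Ioc M (2 * M)) (el d (f M) (c M)) := by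
      unfold Pm
      rw [if_neg (by omega)]
    rw [hP, real_unif _ _ hmeas, Nat.card_Ioc]
    have e1 : 2 * M - M = M := by omega
    rw [e1]
    congr 3
    ext m
    simp only [Set.mem_ofPred_eq, WS_cen hb1, sigma2_cen hb1, mem_filter]

end Pool.Agent.N586.RT
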