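import Mathlib

/-!
# The binomial series with a remainder
-/

set_option autoImplicit false

namespace Pool.Agent.N586.RT

open Finset

/-- the binomial coefficient -/
noncomputable def bc (β : ℝ) : ℕ → ℝ
  | 0 => 1
  | (j + 1) => bc β j * (β - j) / (j + 1)

lemma bc_zero (β : ℝ) : bc β 0 = 1 := rfl

lemma bc_succ (β : ℝ) (j : ℕ) : bc β (j + 1) = bc β j * (β - j) / (j + 1) := rfl

lemma bc_rec (β : ℝ) (j : ℕ) : ((j : ℝ) + 1) * bc β (j + 1) = β * bc (β - 1) j := by
  induction j with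
  | zero => simp [bc]
  | succ j ih =>
    have hj : (j : ℝ) + 1 ≠ 0 := by positivity
    have hj' : (j : ℝ) + 1 + 1 ≠ 0 := by positivity
    rw [bc_succ β (j + 1), bc_succ (β - 1) j]
    push_cast
    rw [mul_div_cancel₀ _ hj', mul_div_assoc', eq_div_iff hj]
    calc bc β (j + 1) * (β - (j + 1)) * (j + 1) = ((j + 1) * bc β (j + 1)) * (β - 1 - j) := by ring
      _ = β * bc (β - 1) j * (β - 1 - j) := by rw [ih]
      _ = _ := by ring

/-- the Taylor polynomial -/
noncomputable def Bp (β : ℝ) (r : ℕ) (z : ℝ) : ℝ := ∑ j ∈ Finset.range r, bc β j * z ^ j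

lemma Bp_zero (β : ℝ) (r : ℕ) : Bp β (r + 1) 0 = 1 := by
  unfold Bp
  rw [Finset.sum_range_succ']
  simp [bc_zero]

lemma hasDerivAt_Bp (β : ℝ) (r : ℕ) (z : ℝ) :
    HasDerivAt (fun y => Bp β (r + 1) y) (β * Bp (β - 1) r z) z := by
  have h1 : (fun y => Bp β (r + 1) y) =
      fun y => ∑ j ∈ Finset.range r, bc β (j + 1) * y ^ (j + 1) + 1 := by
    ext y
    unfold Bp
    rw [Finset.sum_range_succ']
    simp [bc_zero]
  rw [h1]
  have h2 : HasDerivAt (fun y : ℝ => ∑ j ∈ Finset.range r, bc β (j + 1) * y ^ (j + 1) + 1)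
      (∑ j ∈ Finset.range r, bc β (j + 1) * ((j + 1 : ℕ) * z ^ j)) z := by
    refine HasDerivAt.add_const _ (HasDerivAt.fun_sum fun j _ => ?_)
    exact (hasDerivAt_pow (j + 1) z).const_mul _
  refine h2.congr_deriv ?_
  unfold Bp
  rw [Finset.mul_sum]
  refine Finset.sum_congr rfl fun j _ => ?_
  have := bc_rec β j
  push_cast
  calc bc β (j + 1) * ((↑j + 1) * z ^ j) = ((j + 1) * bc β (j + 1)) * z ^ j := by ring
    _ = _ := by rw [this]; ring

lemma hasDerivAt_rp (β : ℝ) {z : ℝ} (hz : 0 ≤ z) :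
    HasDerivAt (fun y : ℝ => (1 + y) ^ β) (β * (1 + z) ^ (β - 1)) z := by
  have h1 : HasDerivAt (fun y : ℝ => 1 + y) 1 z := (hasDerivAt_id z).const_add 1
  have h2 := h1.rpow_const (p := β) (Or.inl (by linarith : (1 : ℝ) + z ≠ 0))
  refine h2.congr_deriv ?_
  ring

/-- **Taylor's theorem** for the powers -/
lemma taylor (r : ℕ) : ∀ (β : ℝ), β ≤ 1 → ∀ z : ℝ, 0 ≤ z →
    |(1 + z) ^ β - Bp β (r + 1) z| ≤ (∏ i ∈ Finset.range (r + 1), |β - i|) * z ^ (r + 1) := by
  induction r with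
  | zero =>
    intro β hβ z hz
    have h1 : ∀ x ∈ Set.Icc (0 : ℝ) z, HasDerivWithinAt (fun y : ℝ => (1 + y) ^ β)
        (β * (1 + x) ^ (β - 1)) (Set.Icc 0 z) x :=
      fun x hx => (hasDerivAt_rp β hx.1).hasDerivWithinAt
    have h2 : ∀ x ∈ Set.Icc (0 : ℝ) z, ‖β * (1 + x) ^ (β - 1)‖ ≤ |β| := by
      intro x hx
      have h3 : (1 + x) ^ (β - 1) ≤ 1 :=
        Real.rpow_le_one_of_one_le_of_nonpos (by linarith [hx.1]) (by linarith)
      have h4 : 0 ≤ (1 + x) ^ (β - 1) := Real.rpow_nonneg (by linarith [hx.1]) _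
      rw [norm_mul, Real.norm_eq_abs, Real.norm_eq_abs, abs_of_nonneg h4]
      exact mul_le_of_le_one_right (abs_nonneg _) h3
    have h3 := (convex_Icc (0 : ℝ) z).norm_image_sub_le_of_norm_hasDerivWithin_le h1 h2
      (Set.left_mem_Icc.2 hz) (Set.right_mem_Icc.2 hz)
    simp only [add_zero, Real.one_rpow, sub_zero, Real.norm_eq_abs, abs_of_nonneg hz] at h3
    simpa [Bp, bc_zero] using h3
  | succ r ih =>
    intro β hβ z hz
    have h1 : ∀ x ∈ Set.Icc (0 : ℝ) z, HasDerivWithinAt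
        (fun y : ℝ => (1 + y) ^ β - Bp β (r + 1 + 1) y)
        (β * (1 + x) ^ (β - 1) - β * Bp (β - 1) (r + 1) x) (Set.Icc 0 z) x :=
      fun x hx => ((hasDerivAt_rp β hx.1).sub (hasDerivAt_Bp β (r + 1) x)).hasDerivWithinAt
    have h2 : ∀ x ∈ Set.Icc (0 : ℝ) z, ‖β * (1 + x) ^ (β - 1) - β * Bp (β - 1) (r + 1) x‖ ≤
        (∏ i ∈ Finset.range (r + 1 + 1), |β - i|) * z ^ (r + 1) := by
      intro x hx
      rw [← mul_sub, norm_mul, Real.norm_eq_abs, Real.norm_eq_abs]
      have h3 := ih (β - 1) (by linarith) x hx.1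
      rw [Finset.prod_range_succ']
      simp only [Nat.cast_zero, sub_zero]
      have h4 : ∏ i ∈ Finset.range (r + 1), |β - ((i + 1 : ℕ) : ℝ)| =
          ∏ i ∈ Finset.range (r + 1), |β - 1 - i| := by
        refine Finset.prod_congr rfl fun i _ => ?_
        push_cast
        congr 1
        ring
      rw [h4]
      have h5 : x ^ (r + 1) ≤ z ^ (r + 1) := pow_le_pow_left₀ hx.1 hx.2 _
      have h6 : 0 ≤ ∏ i ∈ Finset.range (r + 1), |β - 1 - (i : ℝ)| :=
        Finset.prod_nonneg fun i _ => abs_nonneg _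
      calc |β| * |(1 + x) ^ (β - 1) - Bp (β - 1) (r + 1) x| ≤
          |β| * ((∏ i ∈ Finset.range (r + 1), |β - 1 - (i : ℝ)|) * z ^ (r + 1)) := by
            refine mul_le_mul_of_nonneg_left (h3.trans ?_) (abs_nonneg _)
            exact mul_le_mul_of_nonneg_left h5 h6
        _ = _ := by ring
    have h3 := (convex_Icc (0 : ℝ) z).norm_image_sub_le_of_norm_hasDerivWithin_le h1 h2
      (Set.left_mem_Icc.2 hz) (Set.right_mem_Icc.2 hz)
    simp only [add_zero, Real.one_rpow, sub_zero, Real.norm_eq_abs, abs_of_nonneg hz, Bp_zero,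
      sub_self] at h3
    rw [pow_succ z (r + 1), ← mul_assoc]
    exact h3

lemma prod_le_fact {β : ℝ} (h0 : 0 < β) (h1 : β < 1) (r : ℕ) :
    ∏ i ∈ Finset.range (r + 1), |β - i| ≤ r.factorial := by
  induction r with
  | zero => simp [abs_of_pos h0, h1.le]
  | succ r ih =>
    rw [Finset.prod_range_succ, Nat.factorial_succ]
    push_cast
    have h2 : |β - ((r : ℝ) + 1)| ≤ (r : ℝ) + 1 := by
      have : (0 : ℝ) ≤ r := Nat.cast_nonneg r
      rw [abs_le]
      constructor <;> linarith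
    rw [mul_comm]
    exact mul_le_mul h2 ih (Finset.prod_nonneg fun i _ => abs_nonneg _) (by positivity)

/-- Taylor's theorem for exponents between zero and one -/
lemma taylor01 {β : ℝ} (h0 : 0 < β) (h1 : β < 1) (r : ℕ) {z : ℝ} (hz : 0 ≤ z) :
    |(1 + z) ^ β - Bp β (r + 1) z| ≤ r.factorial * z ^ (r + 1) :=
  (taylor r β h1.le z hz).trans
    (mul_le_mul_of_nonneg_right (prod_le_fact h0 h1 r) (by positivity))

lemma abs_bc_succ {β : ℝ} (h1 : β < 1) {j : ℕ} (hj : 1 ≤ j) :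
    |bc β (j + 1)| = |bc β j| * ((j - β) / (j + 1)) := by
  have hjR : (1 : ℝ) ≤ j := by exact_mod_cast hj
  rw [bc_succ, mul_div_assoc, abs_mul, abs_div, abs_of_pos (by positivity : (0 : ℝ) < j + 1),
    abs_of_neg (by linarith : β - j < 0)]
  congr 2
  ring

lemma abs_bc_le {β : ℝ} (h0 : 0 < β) (h1 : β < 1) (j : ℕ) : |bc β j| ≤ 1 := by
  induction j with
  | zero => simp [bc_zero]
  | succ j ih =>
    rcases Nat.eq_zero_or_pos j with rfl | hj
    · simp [bc, abs_of_pos h0, h1.le]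
    · rw [abs_bc_succ h1 hj]
      have hjR : (1 : ℝ) ≤ j := by exact_mod_cast hj
      refine mul_le_one₀ ih (div_nonneg (by linarith) (by linarith)) ?_
      rw [div_le_one (by linarith)]
      linarith

lemma le_abs_bc {β : ℝ} (h0 : 0 < β) (h1 : β < 1) {j : ℕ} (hj : 1 ≤ j) :
    β * (1 - β) / (j : ℝ) ^ 2 ≤ |bc β j| := by
  have hb : 0 < β * (1 - β) := mul_pos h0 (by linarith)
  have key : ∀ j : ℕ, β * (1 - β) / (((j : ℝ) + 1) * (j + 2)) ≤ |bc β (j + 2)| := by
    intro j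
    induction j with
    | zero =>
      rw [abs_bc_succ h1 le_rfl]
      simp only [Nat.cast_zero, Nat.cast_one, bc, zero_add, CharP.cast_eq_zero, sub_zero, one_mul,
        div_one]
      rw [abs_of_pos h0]
      refine le_of_eq ?_
      ring
    | succ j ih =>
      rw [abs_bc_succ h1 (by omega : 1 ≤ j + 2)]
      push_cast
      have hj0 : (0 : ℝ) ≤ j := Nat.cast_nonneg j
      have h2 : ((j : ℝ) + 1) / (j + 3) ≤ ((j : ℝ) + 2 - β) / (j + 2 + 1) := by
        rw [div_le_div_iff₀ (by positivity) (by positivity)]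
        nlinarith
      calc β * (1 - β) / (((j : ℝ) + 1 + 1) * (j + 1 + 2)) =
          β * (1 - β) / (((j : ℝ) + 1) * (j + 2)) * (((j : ℝ) + 1) / (j + 3)) := by
            field_simp
            ring
        _ ≤ |bc β (j + 2)| * (((j : ℝ) + 2 - β) / (j + 2 + 1)) := by
            refine mul_le_mul ih h2 (by positivity) (abs_nonneg _)
  rcases Nat.lt_or_ge j 2 with h | h
  · have : j = 1 := by omega
    subst this
    simp only [bc, CharP.cast_eq_zero, sub_zero, one_mul, zero_add, div_one, Nat.cast_one, one_pow]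
    rw [abs_of_pos h0]
    nlinarith
  · obtain ⟨i, rfl⟩ : ∃ i, j = i + 2 := ⟨j - 2, by omega⟩
    refine le_trans ?_ (key i)
    push_cast
    have hi0 : (0 : ℝ) ≤ i := Nat.cast_nonneg i
    apply div_le_div_of_nonneg_left hb.le (by positivity)
    nlinarith

end Pool.Agent.N586.RT
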