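import Pool.Agent.N586.RT.Zs
import Pool.Agent.N586.RT.Tay
import Pool.Agent.Y933.KD.Fej

/-!
# The phases `∑ A_i t ^ (i / d)`
-/

set_option autoImplicit false

namespace Pool.Agent.N586.RT

open Finset Real
open Pool.Agent.Y957.VK (TT)
open Pool.Agent.Y933.KD (e norm_e e_add)

/-- `∑ A_i t ^ (i / d)`, `1 ≤ i < d` -/
noncomputable def fr (d : ℕ) (A : ℕ → ℝ) (t : ℝ) : ℝ :=
  ∑ i ∈ Finset.Icc 1 (d - 1), A i * t ^ ((i : ℝ) / d)

/-- the local coefficients -/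
noncomputable def lc (d : ℕ) (A : ℕ → ℝ) (n j : ℕ) : ℝ :=
  (∑ i ∈ Finset.Icc 1 (d - 1), A i * (n : ℝ) ^ ((i : ℝ) / d) * bc ((i : ℝ) / d) j) / (n : ℝ) ^ j

lemma sum_Icc_range' {E : Type*} [AddCommMonoid E] (f : ℕ → E) (M : ℕ) :
    ∑ m ∈ Finset.Icc 1 M, f m = ∑ j ∈ range M, f (j + 1) := by
  induction M with
  | zero => simp
  | succ M ih => rw [Finset.sum_Icc_succ_top (by omega), sum_range_succ, ih]

/-- the top term dominates -/
structure Top (d J N : ℕ) (A : ℕ → ℝ) : Prop where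
  J1 : 1 ≤ J
  J2 : J < d
  ne : A J ≠ 0
  top : ∀ i, J < i → A i = 0
  small : ∀ i, |A i| ≤ (N : ℝ) ^ (1 / (4 * (d : ℝ))) * |A J|

lemma frac_mem {d i : ℕ} (hi : i ∈ Finset.Icc 1 (d - 1)) :
    0 < (i : ℝ) / d ∧ (i : ℝ) / d < 1 := by
  rw [Finset.mem_Icc] at hi
  have h1 : (1 : ℝ) ≤ i := by exact_mod_cast hi.1
  have h2 : (i : ℝ) < d := by exact_mod_cast (by omega : i < d)
  have h3 : (0 : ℝ) < d := by linarith
  exact ⟨by positivity, by rw [div_lt_one h3]; exact h2⟩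

/-- sums dominated by the top term -/
lemma dom {d J N : ℕ} {A : ℕ → ℝ} (h : Top d J N A) (hN : 1 ≤ N) {t : ℝ} (ht : (N : ℝ) ≤ t)
    {X : ℝ} (hX : 0 ≤ X) (c : ℕ → ℝ) (hc : ∀ i ∈ Finset.Icc 1 (d - 1), |c i| ≤ X) :
    |∑ i ∈ Finset.Icc 1 (d - 1), A i * t ^ ((i : ℝ) / d) * c i - A J * t ^ ((J : ℝ) / d) * c J| ≤
      |A J| * t ^ ((J : ℝ) / d) * (X * (d * (N : ℝ) ^ (-(3 / (4 * (d : ℝ)))))) := by
  classical
  have hNR : (1 : ℝ) ≤ N := by exact_mod_cast hN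
  have hNp : (0 : ℝ) < N := by linarith
  have ht0 : 0 < t := by linarith
  have ht1 : 1 ≤ t := by linarith
  have hd0 : (0 : ℝ) < d := by
    have := h.J2
    exact_mod_cast (by omega : 0 < d)
  have hJm : J ∈ Finset.Icc 1 (d - 1) := by
    rw [Finset.mem_Icc]
    have := h.J1
    have := h.J2
    omega
  rw [← Finset.add_sum_erase _ _ hJm, add_sub_cancel_left]
  refine (Finset.abs_sum_le_sum_abs _ _).trans ?_
  have h1 : ∀ i ∈ (Finset.Icc 1 (d - 1)).erase J, |A i * t ^ ((i : ℝ) / d) * c i| ≤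
      |A J| * t ^ ((J : ℝ) / d) * (X * (N : ℝ) ^ (-(3 / (4 * (d : ℝ))))) := by
    intro i hi
    rw [Finset.mem_erase] at hi
    rcases Nat.lt_or_ge J i with hJi | hJi
    · rw [h.top i hJi]
      simp only [zero_mul, abs_zero]
      positivity
    · have hlt : i + 1 ≤ J := by
        have := hi.1
        omega
      have hlt' : (i : ℝ) + 1 ≤ J := by exact_mod_cast hlt
      rw [abs_mul, abs_mul, abs_of_pos (Real.rpow_pos_of_pos ht0 _)]
      have e1 : t ^ ((i : ℝ) / d) ≤ t ^ ((J : ℝ) / d) * (N : ℝ) ^ (-(1 / (d : ℝ))) := by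
        calc t ^ ((i : ℝ) / d) ≤ t ^ ((J : ℝ) / d + -(1 / (d : ℝ))) := by
              apply Real.rpow_le_rpow_of_exponent_le ht1
              rw [← sub_eq_add_neg, ← sub_div]
              gcongr
              linarith
          _ = t ^ ((J : ℝ) / d) * t ^ (-(1 / (d : ℝ))) := Real.rpow_add ht0 _ _
          _ ≤ _ := by
              refine mul_le_mul_of_nonneg_left ?_ (by positivity)
              exact Real.rpow_le_rpow_of_nonpos hNp ht (by rw [neg_nonpos]; positivity)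
      have e2 := h.small i
      have e3 : (N : ℝ) ^ (1 / (4 * (d : ℝ))) * (N : ℝ) ^ (-(1 / (d : ℝ))) =
          (N : ℝ) ^ (-(3 / (4 * (d : ℝ)))) := by
        rw [← Real.rpow_add hNp]
        congr 1
        field_simp
        ring
      calc |A i| * t ^ ((i : ℝ) / d) * |c i| ≤
          ((N : ℝ) ^ (1 / (4 * (d : ℝ))) * |A J|) *
            (t ^ ((J : ℝ) / d) * (N : ℝ) ^ (-(1 / (d : ℝ)))) * X := by
            have := hc i hi.2
            gcongr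
        _ = |A J| * t ^ ((J : ℝ) / d) * (X * ((N : ℝ) ^ (1 / (4 * (d : ℝ))) *
            (N : ℝ) ^ (-(1 / (d : ℝ))))) := by ring
        _ = _ := by rw [e3]
  refine (Finset.sum_le_sum h1).trans ?_
  rw [Finset.sum_const, nsmul_eq_mul]
  have h2 : (((Finset.Icc 1 (d - 1)).erase J).card : ℝ) ≤ d := by
    have h3 : ((Finset.Icc 1 (d - 1)).erase J).card ≤ d := by
      refine (Finset.card_erase_le).trans ?_
      rw [Nat.card_Icc]
      omega
    exact_mod_cast h3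
  calc (((Finset.Icc 1 (d - 1)).erase J).card : ℝ) *
        (|A J| * t ^ ((J : ℝ) / d) * (X * (N : ℝ) ^ (-(3 / (4 * (d : ℝ)))))) ≤
      d * (|A J| * t ^ ((J : ℝ) / d) * (X * (N : ℝ) ^ (-(3 / (4 * (d : ℝ)))))) := by gcongr
    _ = _ := by ring

/-- the sum of the absolute values -/
lemma dom_abs {d J N : ℕ} {A : ℕ → ℝ} (h : Top d J N A) (hN : 1 ≤ N) {t : ℝ} (ht : (N : ℝ) ≤ t)
    (hsm : d * (N : ℝ) ^ (-(3 / (4 * (d : ℝ)))) ≤ 1) :
    ∑ i ∈ Finset.Icc 1 (d - 1), |A i| * t ^ ((i : ℝ) / d) ≤ 2 * (|A J| * t ^ ((J : ℝ) / d)) := by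
  have hNR : (1 : ℝ) ≤ N := by exact_mod_cast hN
  have ht0 : 0 < t := by linarith
  have hA : Top d J N (fun i => |A i|) := by
    refine ⟨h.J1, h.J2, abs_ne_zero.2 h.ne, fun i hi => by rw [h.top i hi, abs_zero], fun i => ?_⟩
    rw [abs_abs, abs_abs]
    exact h.small i
  have h1 := dom hA hN ht zero_le_one (fun _ => 1) (fun i _ => by rw [abs_one])
  simp only [mul_one, abs_abs, one_mul] at h1
  have h2 := (abs_le.1 h1).2
  have h3 : 0 ≤ |A J| * t ^ ((J : ℝ) / d) := by positivity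
  nlinarith

/-- sizes of the local coefficients -/
lemma adm_lc {d J N r : ℕ} {A : ℕ → ℝ} (h : Top d J N A) (hN : 1 ≤ N) {κ : ℝ}
    (hκ : (N : ℝ) ^ κ = 12 * (|A J| * (2 * (N : ℝ)) ^ ((J : ℝ) / d)))
    (hsm : d * (N : ℝ) ^ (-(3 / (4 * (d : ℝ)))) ≤ 1)
    (hsm2 : d * (N : ℝ) ^ (-(3 / (4 * (d : ℝ)))) * (4 * d * (r : ℝ) ^ 2) ≤ 1)
    {n : ℕ} (hn : n ∈ Finset.Ioc N (2 * N)) :
    Adm (96 * d) N κ r (lc d A n) := by
  intro j hj
  rw [Finset.mem_Icc] at hj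
  rw [Finset.mem_Ioc] at hn
  have hNR : (1 : ℝ) ≤ N := by exact_mod_cast hN
  have hNp : (0 : ℝ) < N := by linarith
  have hnN : (N : ℝ) ≤ n := by exact_mod_cast hn.1.le
  have hn2 : (n : ℝ) ≤ 2 * N := by exact_mod_cast hn.2
  have hn0 : (0 : ℝ) < n := by linarith
  have hdN := h.J2
  have hJ1 := h.J1
  have hd2 : 2 ≤ d := by omega
  have hdR : (2 : ℝ) ≤ d := by exact_mod_cast hd2
  have hd0 : (0 : ℝ) < d := by linarith
  have hjR : (1 : ℝ) ≤ j := by exact_mod_cast hj.1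
  have hjr : (j : ℝ) ≤ r := by exact_mod_cast hj.2
  have hJm : J ∈ Finset.Icc 1 (d - 1) := by
    rw [Finset.mem_Icc]
    omega
  obtain ⟨hβ0, hβ1⟩ := frac_mem hJm
  have hJR : (1 : ℝ) ≤ J := by exact_mod_cast hJ1
  have hJR2 : (J : ℝ) ≤ d - 1 := by
    have : J + 1 ≤ d := by omega
    have : (J : ℝ) + 1 ≤ d := by exact_mod_cast this
    linarith
  have hpj : (0 : ℝ) < (n : ℝ) ^ j := by positivity
  set T : ℝ := |A J| * (n : ℝ) ^ ((J : ℝ) / d) with hT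
  have hAJ : 0 < |A J| := abs_pos.2 h.ne
  have hT0 : 0 < T := by positivity
  have habs : |lc d A n j| = |∑ i ∈ Finset.Icc 1 (d - 1), A i * (n : ℝ) ^ ((i : ℝ) / d) *
      bc ((i : ℝ) / d) j| / (n : ℝ) ^ j := by
    unfold lc
    rw [abs_div, abs_of_pos hpj]
  have hbc : ∀ i ∈ Finset.Icc 1 (d - 1), |bc ((i : ℝ) / d) j| ≤ 1 := fun i hi =>
    abs_bc_le (frac_mem hi).1 (frac_mem hi).2 j
  have hdom := dom h hN hnN zero_le_one (fun i => bc ((i : ℝ) / d) j) hbc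
  rw [one_mul, ← hT] at hdom
  have hp0 : 0 ≤ (N : ℝ) ^ (-(3 / (4 * (d : ℝ)))) := by positivity
  have hterm : |A J * (n : ℝ) ^ ((J : ℝ) / d) * bc ((J : ℝ) / d) j| = T * |bc ((J : ℝ) / d) j| := by
    rw [abs_mul, abs_mul, abs_of_pos (Real.rpow_pos_of_pos hn0 _), hT]
  constructor
  · -- lower bound
    have hββ : 1 / (2 * (d : ℝ)) ≤ (J : ℝ) / d * (1 - (J : ℝ) / d) := by
      have e1 : (J : ℝ) / d * (1 - (J : ℝ) / d) = (J * (d - J)) / d ^ 2 := by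
        field_simp
      rw [e1, div_le_div_iff₀ (by positivity) (by positivity)]
      have e2 : (d : ℝ) - 1 ≤ J * (d - J) := by nlinarith
      nlinarith
    have h1 := le_abs_bc hβ0 hβ1 hj.1
    have h2 : 1 / (2 * d * (j : ℝ) ^ 2) ≤ |bc ((J : ℝ) / d) j| := by
      refine le_trans ?_ h1
      calc 1 / (2 * d * (j : ℝ) ^ 2) = 1 / (2 * (d : ℝ)) / (j : ℝ) ^ 2 := by rw [div_div]
        _ ≤ _ := by gcongr
    have h3 : d * (N : ℝ) ^ (-(3 / (4 * (d : ℝ)))) ≤ 1 / (4 * d * (j : ℝ) ^ 2) := by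
      rw [le_div_iff₀ (by positivity)]
      refine le_trans ?_ hsm2
      gcongr
    have h4 : T * (1 / (4 * d * (j : ℝ) ^ 2)) ≤
        |∑ i ∈ Finset.Icc 1 (d - 1), A i * (n : ℝ) ^ ((i : ℝ) / d) * bc ((i : ℝ) / d) j| := by
      have h5 := abs_sub_abs_le_abs_sub (A J * (n : ℝ) ^ ((J : ℝ) / d) * bc ((J : ℝ) / d) j)
        (∑ i ∈ Finset.Icc 1 (d - 1), A i * (n : ℝ) ^ ((i : ℝ) / d) * bc ((i : ℝ) / d) j)
      rw [abs_sub_comm (A J * (n : ℝ) ^ ((J : ℝ) / d) * bc ((J : ℝ) / d) j), hterm] at h5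
      have h6 : T * (1 / (2 * d * (j : ℝ) ^ 2)) ≤ T * |bc ((J : ℝ) / d) j| :=
        mul_le_mul_of_nonneg_left h2 hT0.le
      have h7 : T * (d * (N : ℝ) ^ (-(3 / (4 * (d : ℝ))))) ≤ T * (1 / (4 * d * (j : ℝ) ^ 2)) :=
        mul_le_mul_of_nonneg_left h3 hT0.le
      have h8 : T * (1 / (2 * d * (j : ℝ) ^ 2)) = 2 * (T * (1 / (4 * d * (j : ℝ) ^ 2))) := by
        field_simp
        ring
      linarith
    have h5 : (N : ℝ) ^ κ ≤ 24 * T := by
      rw [hκ, hT]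
      have e1 : (2 * (N : ℝ)) ^ ((J : ℝ) / d) ≤ 2 * (n : ℝ) ^ ((J : ℝ) / d) := by
        rw [Real.mul_rpow (by norm_num) hNp.le]
        have e2 : (2 : ℝ) ^ ((J : ℝ) / d) ≤ 2 := by
          calc (2 : ℝ) ^ ((J : ℝ) / d) ≤ (2 : ℝ) ^ (1 : ℝ) :=
                Real.rpow_le_rpow_of_exponent_le (by norm_num) hβ1.le
            _ = 2 := Real.rpow_one _
        have e3 : (N : ℝ) ^ ((J : ℝ) / d) ≤ (n : ℝ) ^ ((J : ℝ) / d) :=
          Real.rpow_le_rpow hNp.le hnN hβ0.le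
        gcongr
      calc 12 * (|A J| * (2 * (N : ℝ)) ^ ((J : ℝ) / d)) ≤
          12 * (|A J| * (2 * (n : ℝ) ^ ((J : ℝ) / d))) := by gcongr
        _ = _ := by ring
    rw [habs, div_le_div_iff₀ (by positivity) hpj]
    calc (N : ℝ) ^ κ * (n : ℝ) ^ j ≤ (24 * T) * (2 * (N : ℝ)) ^ j := by gcongr
      _ = (T * (1 / (4 * d * (j : ℝ) ^ 2))) * (96 * d * (j : ℝ) ^ 2 * (2 * (N : ℝ)) ^ j) := by
          field_simp
          ring
      _ ≤ _ := by gcongr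
  · -- upper bound
    have h1 : |∑ i ∈ Finset.Icc 1 (d - 1), A i * (n : ℝ) ^ ((i : ℝ) / d) * bc ((i : ℝ) / d) j| ≤
        2 * T := by
      have h2 := abs_sub_abs_le_abs_sub
        (∑ i ∈ Finset.Icc 1 (d - 1), A i * (n : ℝ) ^ ((i : ℝ) / d) * bc ((i : ℝ) / d) j)
        (A J * (n : ℝ) ^ ((J : ℝ) / d) * bc ((J : ℝ) / d) j)
      rw [hterm] at h2
      have h3 := hbc J hJm
      have h4 : T * |bc ((J : ℝ) / d) j| ≤ T := mul_le_of_le_one_right hT0.le h3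
      have h5 : T * (d * (N : ℝ) ^ (-(3 / (4 * (d : ℝ))))) ≤ T := mul_le_of_le_one_right hT0.le hsm
      linarith
    have h2 : 2 * T ≤ (N : ℝ) ^ κ / 6 := by
      rw [hκ, hT]
      have e3 : (n : ℝ) ^ ((J : ℝ) / d) ≤ (2 * (N : ℝ)) ^ ((J : ℝ) / d) :=
        Real.rpow_le_rpow hn0.le hn2 hβ0.le
      have e4 : |A J| * (n : ℝ) ^ ((J : ℝ) / d) ≤ |A J| * (2 * (N : ℝ)) ^ ((J : ℝ) / d) := by gcongr
      linarith
    rw [habs]
    calc |∑ i ∈ Finset.Icc 1 (d - 1), A i * (n : ℝ) ^ ((i : ℝ) / d) * bc ((i : ℝ) / d) j| /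
          (n : ℝ) ^ j ≤ ((N : ℝ) ^ κ / 6) / (N : ℝ) ^ j := by
            refine div_le_div₀ (by positivity) (h1.trans h2) (by positivity) ?_
            exact pow_le_pow_left₀ hNp.le hnN j
      _ = _ := by rw [div_div]

lemma norm_e_sub (x y : ℝ) : ‖e x - e y‖ ≤ 2 * π * |x - y| := by
  have h1 : e x - e y = e y * (e (x - y) - 1) := by
    rw [mul_sub, ← e_add, mul_one]
    congr 2
    ring
  rw [h1, norm_mul, norm_e, one_mul]
  have h2 : e (x - y) = Complex.exp (Complex.I * ((2 * π * (x - y) : ℝ) : ℂ)) := by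
    unfold e
    rw [mul_comm]
  rw [h2]
  refine (Real.norm_exp_I_mul_ofReal_sub_one_le).trans ?_
  rw [Real.norm_eq_abs, abs_mul, abs_of_pos (by positivity : (0 : ℝ) < 2 * π)]

lemma ph_eq (r : ℕ) (a : ℕ → ℝ) (h : ℝ) : ph r a h = e (∑ j ∈ Finset.Icc 1 r, a j * h ^ j) := by
  unfold ph e
  congr 1
  push_cast
  ring

/-- the approximation by the local phase -/
lemma approx_fr {d J N r : ℕ} {A : ℕ → ℝ} (h : Top d J N A) (hN : 1 ≤ N) {κ : ℝ}
    (hκ : (N : ℝ) ^ κ = 12 * (|A J| * (2 * (N : ℝ)) ^ ((J : ℝ) / d)))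
    (hsm : d * (N : ℝ) ^ (-(3 / (4 * (d : ℝ)))) ≤ 1)
    {n : ℕ} (hn : n ∈ Finset.Ioc N (2 * N)) (k : ℕ) :
    ‖e (fr d A ((n + k : ℕ) : ℝ)) - e (fr d A n) * ph r (lc d A n) k‖ ≤
      (2 * r.factorial) * ((N : ℝ) ^ κ * ((k : ℝ) / N) ^ (r + 1)) := by
  rw [Finset.mem_Ioc] at hn
  have hNR : (1 : ℝ) ≤ N := by exact_mod_cast hN
  have hNp : (0 : ℝ) < N := by linarith
  have hnN : (N : ℝ) ≤ n := by exact_mod_cast hn.1.le
  have hn2 : (n : ℝ) ≤ 2 * N := by exact_mod_cast hn.2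
  have hn0 : (0 : ℝ) < n := by linarith
  have hdN := h.J2
  have hJ1 := h.J1
  have hJm : J ∈ Finset.Icc 1 (d - 1) := by
    rw [Finset.mem_Icc]
    omega
  obtain ⟨hβ0, hβ1⟩ := frac_mem hJm
  set z : ℝ := (k : ℝ) / n with hz
  have hz0 : 0 ≤ z := by positivity
  have hzN : z ≤ (k : ℝ) / N := by
    rw [hz]
    gcongr
  rw [ph_eq, ← e_add]
  refine (norm_e_sub _ _).trans ?_
  -- the difference of the phases
  have h1 : fr d A ((n + k : ℕ) : ℝ) - (fr d A n + ∑ j ∈ Finset.Icc 1 r, lc d A n j * (k : ℝ) ^ j) =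
      ∑ i ∈ Finset.Icc 1 (d - 1), A i * (n : ℝ) ^ ((i : ℝ) / d) *
        ((1 + z) ^ ((i : ℝ) / d) - Bp ((i : ℝ) / d) (r + 1) z) := by
    have e1 : fr d A ((n + k : ℕ) : ℝ) = ∑ i ∈ Finset.Icc 1 (d - 1), A i * (n : ℝ) ^ ((i : ℝ) / d) *
        (1 + z) ^ ((i : ℝ) / d) := by
      unfold fr
      refine Finset.sum_congr rfl fun i _ => ?_
      have e2 : ((n + k : ℕ) : ℝ) = n * (1 + z) := by
        rw [hz]
        push_cast
        field_simp
      rw [e2, Real.mul_rpow hn0.le (by linarith), mul_assoc]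
    have e2 : ∑ j ∈ Finset.Icc 1 r, lc d A n j * (k : ℝ) ^ j = ∑ i ∈ Finset.Icc 1 (d - 1),
        A i * (n : ℝ) ^ ((i : ℝ) / d) * (Bp ((i : ℝ) / d) (r + 1) z - 1) := by
      have e3 : ∀ i : ℕ, Bp ((i : ℝ) / d) (r + 1) z - 1 =
          ∑ j ∈ Finset.Icc 1 r, bc ((i : ℝ) / d) j * z ^ j := by
        intro i
        unfold Bp
        rw [Finset.sum_range_succ', bc_zero, pow_zero, mul_one, add_sub_cancel_right,
          ← sum_Icc_range' (fun j => bc ((i : ℝ) / d) j * z ^ j)]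
      simp only [e3]
      unfold lc
      simp only [Finset.mul_sum, Finset.sum_div, Finset.sum_mul]
      rw [Finset.sum_comm]
      refine Finset.sum_congr rfl fun i _ => Finset.sum_congr rfl fun j _ => ?_
      rw [hz, div_pow]
      ring
    rw [e1, e2]
    unfold fr
    rw [← Finset.sum_add_distrib, ← Finset.sum_sub_distrib]
    refine Finset.sum_congr rfl fun i _ => ?_
    ring
  rw [h1]
  have h2 : |∑ i ∈ Finset.Icc 1 (d - 1), A i * (n : ℝ) ^ ((i : ℝ) / d) *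
        ((1 + z) ^ ((i : ℝ) / d) - Bp ((i : ℝ) / d) (r + 1) z)| ≤
      (N : ℝ) ^ κ / 6 * (r.factorial * ((k : ℝ) / N) ^ (r + 1)) := by
    calc _ ≤ ∑ i ∈ Finset.Icc 1 (d - 1), |A i * (n : ℝ) ^ ((i : ℝ) / d) *
        ((1 + z) ^ ((i : ℝ) / d) - Bp ((i : ℝ) / d) (r + 1) z)| := Finset.abs_sum_le_sum_abs _ _
      _ ≤ ∑ i ∈ Finset.Icc 1 (d - 1), |A i| * (n : ℝ) ^ ((i : ℝ) / d) *
          (r.factorial * ((k : ℝ) / N) ^ (r + 1)) := by
          refine Finset.sum_le_sum fun i hi => ?_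
          obtain ⟨hi0, hi1⟩ := frac_mem hi
          rw [abs_mul, abs_mul, abs_of_pos (Real.rpow_pos_of_pos hn0 _)]
          refine mul_le_mul_of_nonneg_left ?_ (by positivity)
          refine (taylor01 hi0 hi1 r hz0).trans ?_
          gcongr
      _ = (∑ i ∈ Finset.Icc 1 (d - 1), |A i| * (n : ℝ) ^ ((i : ℝ) / d)) *
          (r.factorial * ((k : ℝ) / N) ^ (r + 1)) := by rw [Finset.sum_mul]
      _ ≤ _ := by
          refine mul_le_mul_of_nonneg_right ?_ (by positivity)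
          refine (dom_abs h hN hnN hsm).trans ?_
          rw [hκ]
          have e3 : (n : ℝ) ^ ((J : ℝ) / d) ≤ (2 * (N : ℝ)) ^ ((J : ℝ) / d) :=
            Real.rpow_le_rpow hn0.le hn2 hβ0.le
          have e4 : |A J| * (n : ℝ) ^ ((J : ℝ) / d) ≤ |A J| * (2 * (N : ℝ)) ^ ((J : ℝ) / d) := by
            gcongr
          linarith
  have hpi : 2 * π / 6 ≤ 2 := by
    have := Real.pi_le_four
    linarith
  calc 2 * π * |∑ i ∈ Finset.Icc 1 (d - 1), A i * (n : ℝ) ^ ((i : ℝ) / d) *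
        ((1 + z) ^ ((i : ℝ) / d) - Bp ((i : ℝ) / d) (r + 1) z)| ≤
      2 * π * ((N : ℝ) ^ κ / 6 * (r.factorial * ((k : ℝ) / N) ^ (r + 1))) := by gcongr
    _ = (2 * π / 6) * (r.factorial * ((N : ℝ) ^ κ * ((k : ℝ) / N) ^ (r + 1))) := by ring
    _ ≤ 2 * (r.factorial * ((N : ℝ) ^ κ * ((k : ℝ) / N) ^ (r + 1))) := by gcongr
    _ = _ := by ring

end Pool.Agent.N586.RT
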