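import Pool.Agent.N586.RT.Ph
import Pool.Agent.Y933.KG.Pm
import Pool.Agent.Y933.KD.VdC3

/-!
# The sums with small phases: van der Corput's second derivative test
-/

set_option autoImplicit false

namespace Pool.Agent.N586.RT

open Finset Real Filter
open Pool.Agent.Y933.KD (e norm_e e_add)
open Pool.Agent.Y933.KD.VdC (ev_le)

/-- descending products -/
noncomputable def ff (β : ℝ) (m : ℕ) : ℝ := ∏ k ∈ Finset.range m, (β - k)

/-- the derivatives of `fr` -/
noncomputable def frd (d : ℕ) (A : ℕ → ℝ) (m : ℕ) (t : ℝ) : ℝ :=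
  ∑ i ∈ Finset.Icc 1 (d - 1), A i * (ff ((i : ℝ) / d) m * t ^ ((i : ℝ) / d - m))

lemma frd_zero (d : ℕ) (A : ℕ → ℝ) (t : ℝ) : frd d A 0 t = fr d A t := by
  unfold frd fr ff
  simp

lemma frd_der (d : ℕ) (A : ℕ → ℝ) (m : ℕ) {t : ℝ} (ht : 0 < t) :
    HasDerivAt (frd d A m) (frd d A (m + 1) t) t := by
  unfold frd
  refine HasDerivAt.fun_sum fun i _ => ?_
  have h1 := (Real.hasDerivAt_rpow_const (x := t) (p := (i : ℝ) / d - m) (Or.inl ht.ne')).const_mul
    (ff ((i : ℝ) / d) m)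
  have h2 := h1.const_mul (A i)
  refine h2.congr_deriv ?_
  unfold ff
  rw [Finset.prod_range_succ]
  push_cast
  have e1 : (i : ℝ) / d - (m + 1) = (i : ℝ) / d - m - 1 := by ring
  rw [e1]
  ring

lemma frd_eq {d : ℕ} {A : ℕ → ℝ} (m : ℕ) {t : ℝ} (ht : 0 < t) :
    frd d A m t = (∑ i ∈ Finset.Icc 1 (d - 1), A i * t ^ ((i : ℝ) / d) * ff ((i : ℝ) / d) m) /
      t ^ m := by
  unfold frd
  rw [Finset.sum_div]
  refine Finset.sum_congr rfl fun i _ => ?_
  rw [Real.rpow_sub ht, Real.rpow_natCast]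
  ring

lemma ff_two (β : ℝ) : ff β 2 = β * (β - 1) := by
  unfold ff
  simp [Finset.prod_range_succ]

lemma ff_three (β : ℝ) : ff β 3 = β * (β - 1) * (β - 2) := by
  unfold ff
  simp [Finset.prod_range_succ]

/-- the sums with small phases -/
theorem sum_small (d : ℕ) (hd : 2 ≤ d) : ∃ ρ : ℝ, 0 < ρ ∧ ∃ N0 : ℕ, ∀ N : ℕ, N0 ≤ N →
    ∀ (A : ℕ → ℝ) (J : ℕ) (κ : ℝ), Top d J N A →
    (N : ℝ) ^ κ = 12 * (|A J| * (2 * (N : ℝ)) ^ ((J : ℝ) / d)) → 1 / (2 * (d : ℝ)) ≤ κ → κ ≤ 3 / 2 →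
    ‖∑ n ∈ Finset.Ioc N (2 * N), e (fr d A n)‖ ≤ (N : ℝ) ^ (1 - ρ) := by
  have hdR : (2 : ℝ) ≤ d := by exact_mod_cast hd
  have hd0 : (0 : ℝ) < d := by linarith
  set μ : ℝ := 1 / (4 * d) with hμ
  have hμ0 : 0 < μ := by positivity
  have hμ1 : μ ≤ 1 / 4 := by
    rw [hμ]
    apply one_div_le_one_div_of_le (by norm_num)
    linarith
  obtain ⟨ρ, hρ, N1, hN1⟩ := Pool.Agent.Y933.KG.core_pm 1 le_rfl μ hμ0 hμ1
  obtain ⟨N2, hN2⟩ := eventually_atTop.1 (((ev_le (8 * (d : ℝ) ^ 2) (3 / (4 * (d : ℝ)))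
    (by positivity)).and (ev_le (72 * (d : ℝ)) (μ / 4) (by positivity))).and
    (ev_le (864 * (d : ℝ)) μ hμ0))
  refine ⟨ρ, hρ, max (max N1 N2) 1, ?_⟩
  intro N hN A J κ h hκ hκ1 hκ2
  have hNN1 : N1 ≤ N := le_of_max_le_left (le_of_max_le_left hN)
  have hNN2 : N2 ≤ N := le_of_max_le_right (le_of_max_le_left hN)
  have hN1' : 1 ≤ N := le_of_max_le_right hN
  obtain ⟨⟨ha, hb⟩, hc⟩ := hN2 N hNN2
  have hNR : (1 : ℝ) ≤ N := by exact_mod_cast hN1'
  have hNp : (0 : ℝ) < N := by linarith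
  have hJ1 := h.J1
  have hJ2 := h.J2
  have hJm : J ∈ Finset.Icc 1 (d - 1) := by
    rw [Finset.mem_Icc]
    omega
  obtain ⟨hβ0, hβ1⟩ := frac_mem hJm
  set β : ℝ := (J : ℝ) / d with hβ
  have hAJ : 0 < |A J| := abs_pos.2 h.ne
  have hJR : (1 : ℝ) ≤ J := by exact_mod_cast hJ1
  have hJR2 : (J : ℝ) ≤ d - 1 := by
    have : J + 1 ≤ d := by omega
    have : (J : ℝ) + 1 ≤ d := by exact_mod_cast this
    linarith
  have hββ : 1 / (2 * (d : ℝ)) ≤ β * (1 - β) := by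
    have e1 : β * (1 - β) = (J * (d - J)) / d ^ 2 := by
      rw [hβ]
      field_simp
    rw [e1, div_le_div_iff₀ (by positivity) (by positivity)]
    have e2 : (d : ℝ) - 1 ≤ J * (d - J) := by nlinarith
    nlinarith
  -- the error
  set ε : ℝ := d * (N : ℝ) ^ (-(3 / (4 * (d : ℝ)))) with hε
  have hε0 : 0 ≤ ε := by positivity
  have hε1 : ε ≤ 1 / (8 * d) := by
    rw [hε, Real.rpow_neg hNp.le, le_div_iff₀ (by positivity)]
    have h3 : 0 < (N : ℝ) ^ (3 / (4 * (d : ℝ))) := by positivity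
    rw [mul_right_comm, ← div_eq_mul_inv, div_le_one h3]
    calc (d : ℝ) * (8 * d) = 8 * (d : ℝ) ^ 2 := by ring
      _ ≤ _ := ha
  have h8 : (1 : ℝ) / (8 * d) = 1 / (2 * d) / 4 := by
    rw [div_div]
    ring_nf
  -- sizes of the derivatives
  have hsz2 : ∀ t : ℝ, (N : ℝ) ≤ t →
      |A J| * t ^ β / (4 * d) / t ^ 2 ≤ |frd d A 2 t| ∧ |frd d A 2 t| ≤ 2 * (|A J| * t ^ β) / t ^ 2 := by
    intro t ht
    have ht0 : 0 < t := by linarith
    have ht2 : 0 < t ^ 2 := by positivity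
    have hT0 : 0 < |A J| * t ^ β := by positivity
    have hc2 : ∀ i ∈ Finset.Icc 1 (d - 1), |ff ((i : ℝ) / d) 2| ≤ 1 := by
      intro i hi
      obtain ⟨h1, h2⟩ := frac_mem hi
      rw [ff_two, abs_mul, abs_of_pos h1, abs_of_neg (by linarith)]
      nlinarith
    have hdom := dom h hN1' ht zero_le_one (fun i => ff ((i : ℝ) / d) 2) hc2
    rw [one_mul, ← hε, ← hβ] at hdom
    rw [frd_eq 2 ht0, abs_div, abs_of_pos ht2]
    have hterm : |A J * t ^ β * ff β 2| = |A J| * t ^ β * (β * (1 - β)) := by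
      rw [abs_mul, abs_mul, abs_of_pos (Real.rpow_pos_of_pos ht0 _), ff_two, abs_mul,
        abs_of_pos hβ0, abs_of_neg (by linarith : β - 1 < 0)]
      ring
    have h5 := abs_sub_abs_le_abs_sub (A J * t ^ β * ff β 2)
      (∑ i ∈ Finset.Icc 1 (d - 1), A i * t ^ ((i : ℝ) / d) * ff ((i : ℝ) / d) 2)
    have h6 := abs_sub_abs_le_abs_sub
      (∑ i ∈ Finset.Icc 1 (d - 1), A i * t ^ ((i : ℝ) / d) * ff ((i : ℝ) / d) 2)
      (A J * t ^ β * ff β 2)
    rw [abs_sub_comm (A J * t ^ β * ff β 2), hterm] at h5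
    rw [hterm] at h6
    have h7 : |A J| * t ^ β * (1 / (2 * d)) ≤ |A J| * t ^ β * (β * (1 - β)) :=
      mul_le_mul_of_nonneg_left hββ hT0.le
    have h9 : |A J| * t ^ β * ε ≤ |A J| * t ^ β * (1 / (8 * d)) :=
      mul_le_mul_of_nonneg_left hε1 hT0.le
    have h10 : |A J| * t ^ β * (β * (1 - β)) ≤ |A J| * t ^ β * 1 :=
      mul_le_mul_of_nonneg_left (by nlinarith) hT0.le
    have h11 : (1 : ℝ) / (8 * d) ≤ 1 := by
      rw [div_le_one (by positivity)]
      linarith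
    have h12 : |A J| * t ^ β * (1 / (8 * d)) ≤ |A J| * t ^ β * 1 :=
      mul_le_mul_of_nonneg_left h11 hT0.le
    have h13 : |A J| * t ^ β / (4 * d) = |A J| * t ^ β * (1 / (2 * d)) / 2 := by
      field_simp
      ring
    have h14 : |A J| * t ^ β * (1 / (8 * d)) = |A J| * t ^ β * (1 / (2 * d)) / 4 := by
      rw [h8]
      ring
    have h15 : 0 ≤ |A J| * t ^ β * (1 / (2 * d)) := by positivity
    constructor
    · refine div_le_div_of_nonneg_right ?_ ht2.le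
      rw [h13]
      linarith
    · refine div_le_div_of_nonneg_right ?_ ht2.le
      linarith
  have hne3 : ∀ t : ℝ, (N : ℝ) ≤ t → frd d A 3 t ≠ 0 := by
    intro t ht
    have ht0 : 0 < t := by linarith
    have hT0 : 0 < |A J| * t ^ β := by positivity
    have hc3 : ∀ i ∈ Finset.Icc 1 (d - 1), |ff ((i : ℝ) / d) 3| ≤ 2 := by
      intro i hi
      obtain ⟨h1, h2⟩ := frac_mem hi
      rw [ff_three, abs_mul, abs_mul, abs_of_pos h1, abs_of_neg (by linarith),
        abs_of_neg (by linarith)]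
      have e1 : (i : ℝ) / d * -((i : ℝ) / d - 1) ≤ 1 := by nlinarith
      have e2 : 0 ≤ (i : ℝ) / d * -((i : ℝ) / d - 1) := by nlinarith
      nlinarith
    have hdom := dom h hN1' ht (by norm_num : (0 : ℝ) ≤ 2) (fun i => ff ((i : ℝ) / d) 3) hc3
    rw [← hε, ← hβ] at hdom
    rw [frd_eq 3 ht0]
    intro hzero
    rw [div_eq_zero_iff] at hzero
    rcases hzero with hz | hz
    · rw [hz, zero_sub, abs_neg, abs_mul, abs_mul, abs_of_pos (Real.rpow_pos_of_pos ht0 _),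
        ff_three, abs_mul, abs_mul, abs_of_pos hβ0, abs_of_neg (by linarith : β - 1 < 0),
        abs_of_neg (by linarith : β - 2 < 0)] at hdom
      have h1 : 1 / (2 * (d : ℝ)) ≤ β * -(β - 1) * -(β - 2) := by
        have : 0 ≤ β * (1 - β) := by nlinarith
        nlinarith
      have h2 : |A J| * t ^ β * (1 / (2 * d)) ≤ |A J| * t ^ β * (β * -(β - 1) * -(β - 2)) :=
        mul_le_mul_of_nonneg_left h1 hT0.le
      have h3 : |A J| * t ^ β * (2 * ε) ≤ |A J| * t ^ β * (2 * (1 / (8 * d))) :=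
        mul_le_mul_of_nonneg_left (by linarith) hT0.le
      have h4 : |A J| * t ^ β * (2 * (1 / (8 * d))) = |A J| * t ^ β * (1 / (2 * d)) / 2 := by
        rw [h8]
        ring
      have h5 : 0 < |A J| * t ^ β * (1 / (2 * d)) := by positivity
      linarith
    · exact absurd hz (by positivity)
  -- the interval
  have hmem : ∀ t ∈ Set.Icc (N : ℝ) (2 * N + 1), (N : ℝ) ≤ t ∧ t ≤ 3 * N := by
    intro t ht
    exact ⟨ht.1, by linarith [ht.2]⟩
  set T : ℝ := |A J| * (N : ℝ) ^ β with hT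
  have hT0 : 0 < T := by positivity
  have hκT : (N : ℝ) ^ κ ≤ 24 * T := by
    rw [hκ, hT]
    have e1 : (2 * (N : ℝ)) ^ β ≤ 2 * (N : ℝ) ^ β := by
      rw [Real.mul_rpow (by norm_num) hNp.le]
      have e2 : (2 : ℝ) ^ β ≤ 2 := by
        calc (2 : ℝ) ^ β ≤ (2 : ℝ) ^ (1 : ℝ) :=
              Real.rpow_le_rpow_of_exponent_le (by norm_num) hβ1.le
          _ = 2 := Real.rpow_one _
      gcongr
    calc 12 * (|A J| * (2 * (N : ℝ)) ^ β) ≤ 12 * (|A J| * (2 * (N : ℝ) ^ β)) := by gcongr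
      _ = _ := by ring
  have hTκ : T ≤ (N : ℝ) ^ κ := by
    rw [hκ, hT]
    have e1 : (N : ℝ) ^ β ≤ (2 * (N : ℝ)) ^ β := Real.rpow_le_rpow hNp.le (by linarith) hβ0.le
    have e2 : |A J| * (N : ℝ) ^ β ≤ |A J| * (2 * (N : ℝ)) ^ β := by gcongr
    have e3 : 0 ≤ |A J| * (2 * (N : ℝ)) ^ β := by positivity
    linarith
  set lo : ℝ := T / (36 * d * (N : ℝ) ^ 2) with hlo
  set hi : ℝ := 2 * T / (N : ℝ) ^ 2 with hhi
  have hlo0 : 0 < lo := by positivity
  have key := hN1 N hNN1 (N : ℝ) (2 * N + 1) lo hi (frd d A) hlo0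
    (fun m t ht => frd_der d A m (by linarith [(hmem t ht).1]))
    (by
      intro t ht
      obtain ⟨h1, h2⟩ := hmem t ht
      have ht0 : 0 < t := by linarith
      refine le_trans ?_ (hsz2 t h1).1
      rw [hlo, hT, div_div, div_le_div_iff₀ (by positivity) (by positivity)]
      have e1 : (N : ℝ) ^ β ≤ t ^ β := Real.rpow_le_rpow hNp.le h1 hβ0.le
      have e2 : t ^ 2 ≤ 9 * (N : ℝ) ^ 2 := by nlinarith
      calc |A J| * (N : ℝ) ^ β * (4 * d * t ^ 2) ≤ |A J| * t ^ β * (4 * d * (9 * (N : ℝ) ^ 2)) := by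
            gcongr
        _ = _ := by ring)
    (by
      intro t ht
      obtain ⟨h1, h2⟩ := hmem t ht
      have ht0 : 0 < t := by linarith
      refine (hsz2 t h1).2.trans ?_
      have e1 : t ^ β / t ^ 2 ≤ (N : ℝ) ^ β / (N : ℝ) ^ 2 := by
        have e2 : ∀ x : ℝ, 0 < x → x ^ β / x ^ 2 = x ^ (β - 2) := by
          intro x hx
          rw [Real.rpow_sub hx]
          norm_cast
        rw [e2 t ht0, e2 N hNp]
        exact Real.rpow_le_rpow_of_nonpos hNp h1 (by linarith)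
      calc 2 * (|A J| * t ^ β) / t ^ 2 = 2 * |A J| * (t ^ β / t ^ 2) := by ring
        _ ≤ 2 * |A J| * ((N : ℝ) ^ β / (N : ℝ) ^ 2) := by gcongr
        _ = hi := by rw [hhi, hT]; ring)
    (fun t ht => hne3 t (hmem t ht).1)
    1 ((N : ℝ) + 1) N le_rfl le_rfl (by linarith) one_ne_zero
    (by
      calc hi = 72 * d * lo := by
            rw [hhi, hlo]
            field_simp
            ring
        _ = lo * (72 * d) := by ring
        _ ≤ lo * (N : ℝ) ^ (μ / 4) := by gcongr)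
    (by
      rw [abs_one, one_mul]
      calc lo ≤ T / (N : ℝ) ^ 2 := by
            rw [hlo]
            apply div_le_div_of_nonneg_left hT0.le (by positivity)
            have : (1 : ℝ) ≤ 36 * d := by linarith
            have h2 : (0 : ℝ) ≤ (N : ℝ) ^ 2 := by positivity
            nlinarith
        _ ≤ (N : ℝ) ^ κ / (N : ℝ) ^ 2 := by gcongr
        _ = (N : ℝ) ^ (κ - 2) := by
            rw [Real.rpow_sub hNp]
            norm_cast
        _ ≤ (N : ℝ) ^ (-μ) := Real.rpow_le_rpow_of_exponent_le hNR (by linarith))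
    (by
      rw [abs_one, one_mul]
      have e1 : (N : ℝ) ^ (-(((1 : ℕ) : ℝ) + 1) + μ) = (N : ℝ) ^ (2 * μ) * (N : ℝ) ^ (-μ) / (N : ℝ) ^ 2 := by
        rw [← Real.rpow_add hNp, ← Real.rpow_natCast (N : ℝ) 2, ← Real.rpow_sub hNp]
        congr 1
        push_cast
        ring
      have e2 : (N : ℝ) ^ (2 * μ) ≤ (N : ℝ) ^ κ := by
        apply Real.rpow_le_rpow_of_exponent_le hNR
        refine le_trans (le_of_eq ?_) hκ1
        rw [hμ]
        field_simp
        ring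
      have e3 : (N : ℝ) ^ (-μ) ≤ 1 / (864 * d) := by
        rw [Real.rpow_neg hNp.le, ← one_div]
        exact one_div_le_one_div_of_le (by positivity) hc
      rw [e1, hlo]
      calc (N : ℝ) ^ (2 * μ) * (N : ℝ) ^ (-μ) / (N : ℝ) ^ 2 ≤
          (24 * T) * (1 / (864 * d)) / (N : ℝ) ^ 2 := by
            have := e2.trans hκT
            gcongr
        _ = T / (36 * d * (N : ℝ) ^ 2) := by
            field_simp
            ring)
  refine le_trans (le_of_eq ?_) key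
  congr 1
  have h1 : Finset.Ioc N (2 * N) = Finset.Ioc N (N + N) := by rw [two_mul]
  have h2 := Pool.Agent.Y933.KD.VdC.sum_Ioc_split (fun n => e (fr d A n)) N N 0 (Nat.zero_le _)
  simp only [add_zero, Finset.Ioc_self, Finset.sum_empty, zero_add, Nat.sub_zero] at h2
  rw [h1, h2]
  refine Finset.sum_congr rfl fun n _ => ?_
  rw [one_mul, frd_zero]
  have e1 : ((N + 1 + n : ℕ) : ℝ) = (N : ℝ) + 1 + n := by push_cast; ring
  rw [e1]
  rfl

end Pool.Agent.N586.RT
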