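import Pool.Agent.N586.RT.Tn

/-!
# From sums of unimodular numbers with admissible local phases to bilinear sums
-/

set_option autoImplicit false

namespace Pool.Agent.N586.RT

open Finset Pool.Agent.Y957.VK

/-- the local phase -/
noncomputable def ph (r : ℕ) (a : ℕ → ℝ) (h : ℝ) : ℂ :=
  Complex.exp (2 * Real.pi * Complex.I * ((∑ j ∈ Finset.Icc 1 r, a j * h ^ j : ℝ) : ℂ))

/-- the shift of a sum -/
theorem shift_one (g : ℕ → ℂ) (hg : ∀ n, ‖g n‖ ≤ 1) (N N' h : ℕ) (hNN : N ≤ N') :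
    ‖∑ n ∈ Finset.Ioc N N', g n - ∑ n ∈ Finset.Ioc N N', g (n + h)‖ ≤ 2 * h := by
  have hb : ∀ a b : ℕ, ‖∑ n ∈ Finset.Ioc a (a + b), g n‖ ≤ b := by
    intro a b
    refine (norm_sum_le _ _).trans ?_
    refine (Finset.sum_le_sum fun n _ => hg n).trans ?_
    simp
  have h1 : ∑ n ∈ Finset.Ioc N N', g (n + h) = ∑ n ∈ Finset.Ioc (N + h) (N' + h), g n := by
    rw [← Finset.map_add_right_Ioc, Finset.sum_map]
    rfl
  have h2 : ∑ n ∈ Finset.Ioc N N', g n + ∑ n ∈ Finset.Ioc N' (N' + h), g n =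
      ∑ n ∈ Finset.Ioc N (N + h), g n + ∑ n ∈ Finset.Ioc (N + h) (N' + h), g n := by
    rw [Finset.sum_Ioc_consecutive g hNN (by omega),
      Finset.sum_Ioc_consecutive g (by omega) (by omega)]
  have h3 : ∑ n ∈ Finset.Ioc N N', g n - ∑ n ∈ Finset.Ioc N N', g (n + h) =
      ∑ n ∈ Finset.Ioc N (N + h), g n - ∑ n ∈ Finset.Ioc N' (N' + h), g n := by
    rw [h1]
    linear_combination h2
  rw [h3]
  refine (norm_sub_le _ _).trans ?_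
  linarith [hb N h, hb N' h]

theorem shift (g : ℕ → ℂ) (hg : ∀ n, ‖g n‖ ≤ 1) (N N' M r : ℕ) (a : ℕ → ℕ → ℝ) (η : ℝ)
    (hη : 0 ≤ η) (hNN : N ≤ N') (hN2 : N' ≤ 2 * N) (hM : 1 ≤ M)
    (happ : ∀ n ∈ Finset.Ioc N N', ∀ x ∈ Finset.Icc 1 M, ∀ y ∈ Finset.Icc 1 M,
      ‖g (n + x * y) - g n * ph r (a n) ((x : ℝ) * y)‖ ≤ η) :
    ‖∑ n ∈ Finset.Ioc N N', g n‖ ≤
      1 / (M : ℝ) ^ 2 * ∑ n ∈ Finset.Ioc N N', ‖TT r M (a n)‖ + 2 * (M : ℝ) ^ 2 + N * η := by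
  obtain ⟨S, hS⟩ : ∃ S, S = ∑ n ∈ Finset.Ioc N N', g n := ⟨_, rfl⟩
  rw [← hS]
  have hM0 : (0 : ℝ) < M := by exact_mod_cast hM
  have h1 : (M : ℂ) ^ 2 * S = ∑ x ∈ Finset.Icc 1 M, ∑ y ∈ Finset.Icc 1 M,
      (S - ∑ n ∈ Finset.Ioc N N', g (n + x * y)) +
      ∑ n ∈ Finset.Ioc N N', ∑ x ∈ Finset.Icc 1 M, ∑ y ∈ Finset.Icc 1 M, g (n + x * y) := by
    have h2 : ∑ n ∈ Finset.Ioc N N', ∑ x ∈ Finset.Icc 1 M, ∑ y ∈ Finset.Icc 1 M, g (n + x * y) =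
        ∑ x ∈ Finset.Icc 1 M, ∑ y ∈ Finset.Icc 1 M, ∑ n ∈ Finset.Ioc N N', g (n + x * y) := by
      rw [Finset.sum_comm]
      refine Finset.sum_congr rfl fun x _ => ?_
      rw [Finset.sum_comm]
    rw [h2]
    simp only [Finset.sum_sub_distrib, Finset.sum_const, Nat.card_Icc, Nat.add_sub_cancel,
      nsmul_eq_mul]
    ring
  have hin : ∀ n ∈ Finset.Ioc N N', ‖∑ x ∈ Finset.Icc 1 M, ∑ y ∈ Finset.Icc 1 M, g (n + x * y)‖ ≤
      ‖TT r M (a n)‖ + (M : ℝ) ^ 2 * η := by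
    intro n hn
    have h2 : ∑ x ∈ Finset.Icc 1 M, ∑ y ∈ Finset.Icc 1 M, g (n + x * y) =
        g n * TT r M (a n) +
        ∑ x ∈ Finset.Icc 1 M, ∑ y ∈ Finset.Icc 1 M,
          (g (n + x * y) - g n * ph r (a n) ((x : ℝ) * y)) := by
      unfold TT ph
      simp only [Finset.sum_sub_distrib, Finset.mul_sum]
      ring
    rw [h2]
    refine (norm_add_le _ _).trans ?_
    rw [norm_mul]
    refine add_le_add ?_ ?_
    · exact mul_le_of_le_one_left (norm_nonneg _) (hg n)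
    · refine (norm_sum_le _ _).trans ?_
      refine (Finset.sum_le_sum fun x hx => (norm_sum_le _ _).trans
        (Finset.sum_le_sum fun y hy => happ n hn x hx y hy)).trans ?_
      simp only [Finset.sum_const, Nat.card_Icc, Nat.add_sub_cancel, nsmul_eq_mul]
      rw [sq]
      linarith
  have h3 : (M : ℝ) ^ 2 * ‖S‖ ≤ (M : ℝ) ^ 2 * (2 * (M : ℝ) ^ 2) +
      ∑ n ∈ Finset.Ioc N N', (‖TT r M (a n)‖ + (M : ℝ) ^ 2 * η) := by
    have h4 : ‖(M : ℂ) ^ 2 * S‖ = (M : ℝ) ^ 2 * ‖S‖ := by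
      rw [norm_mul, norm_pow, Complex.norm_natCast]
    rw [← h4, h1]
    refine (norm_add_le _ _).trans (add_le_add ?_ ?_)
    · refine (norm_sum_le _ _).trans ?_
      refine (Finset.sum_le_sum (g := fun _ => (M : ℝ) * (2 * (M : ℝ) ^ 2)) fun x hx =>
        (norm_sum_le _ _).trans ?_).trans ?_
      · refine (Finset.sum_le_sum (g := fun _ => 2 * (M : ℝ) ^ 2) fun y hy => ?_).trans ?_
        · rw [hS]
          refine (shift_one g hg N N' (x * y) hNN).trans ?_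
          have hx' : (x : ℝ) ≤ M := by exact_mod_cast (Finset.mem_Icc.1 hx).2
          have hy' : (y : ℝ) ≤ M := by exact_mod_cast (Finset.mem_Icc.1 hy).2
          have : (x : ℝ) * y ≤ M * M := mul_le_mul hx' hy' (by positivity) (by positivity)
          push_cast
          nlinarith
        · simp
      · simp only [Finset.sum_const, Nat.card_Icc, Nat.add_sub_cancel, nsmul_eq_mul]
        rw [sq]
        linarith
    · exact (norm_sum_le _ _).trans (Finset.sum_le_sum hin)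
  rw [Finset.sum_add_distrib] at h3
  have h5 : ∑ n ∈ Finset.Ioc N N', (M : ℝ) ^ 2 * η ≤ (M : ℝ) ^ 2 * (N * η) := by
    rw [Finset.sum_const, Nat.card_Ioc, nsmul_eq_mul]
    have h6 : ((N' - N : ℕ) : ℝ) ≤ N := by exact_mod_cast (by omega : N' - N ≤ N)
    have h7 : 0 ≤ (M : ℝ) ^ 2 * η := by positivity
    calc _ ≤ (N : ℝ) * ((M : ℝ) ^ 2 * η) := mul_le_mul_of_nonneg_right h6 h7
      _ = _ := by ring
  have h8 : (0 : ℝ) < (M : ℝ) ^ 2 := by positivity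
  have h9 : (M : ℝ) ^ 2 * ‖S‖ ≤ (M : ℝ) ^ 2 * (1 / (M : ℝ) ^ 2 *
      ∑ n ∈ Finset.Ioc N N', ‖TT r M (a n)‖ + 2 * (M : ℝ) ^ 2 + N * η) := by
    have h10 : (M : ℝ) ^ 2 * (1 / (M : ℝ) ^ 2 *
      ∑ n ∈ Finset.Ioc N N', ‖TT r M (a n)‖ + 2 * (M : ℝ) ^ 2 + N * η) =
        ∑ n ∈ Finset.Ioc N N', ‖TT r M (a n)‖ +
        (M : ℝ) ^ 2 * (2 * (M : ℝ) ^ 2) + (M : ℝ) ^ 2 * (N * η) := by
      field_simp
    rw [h10]
    linarith
  exact le_of_mul_le_mul_left h9 h8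

/-- **sums with admissible local phases** -/
theorem zs (D : ℝ) (hD : 1 ≤ D) : ∃ C : ℕ, ∀ (N N' : ℕ) (κ R : ℝ) (g : ℕ → ℂ) (a : ℕ → ℕ → ℝ),
    2 ≤ N → N ≤ N' → N' ≤ 2 * N → 1 / 2 ≤ κ → 0 ≤ R → (∀ n, ‖g n‖ ≤ 1) →
    (∀ n ∈ Finset.Ioc N N', Adm D N κ (⌈5 * κ⌉₊ + 5) (a n)) →
    (∀ n ∈ Finset.Ioc N N', ∀ h : ℕ, (h : ℝ) ≤ (N : ℝ) ^ (4 / 5 : ℝ) →
      ‖g (n + h) - g n * ph (⌈5 * κ⌉₊ + 5) (a n) h‖ ≤
        R * ((N : ℝ) ^ κ * ((h : ℝ) / N) ^ (⌈5 * κ⌉₊ + 5 + 1))) →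
    ‖∑ n ∈ Finset.Ioc N N', g n‖ ≤
      (Real.exp (C * (1 + κ) ^ C) + R) * (N : ℝ) ^ (1 - 1 / 10 ^ 10 / (1 + κ) ^ 2 : ℝ) := by
  obtain ⟨C, hT⟩ := tn D hD
  refine ⟨C + 3, fun N N' κ R g a hN hNN hN2 hκ hR hg hadm happ => ?_⟩
  have hN1 : (1 : ℝ) ≤ N := by exact_mod_cast (by omega : 1 ≤ N)
  have hNp : (0 : ℝ) < N := by linarith
  obtain ⟨x, hx⟩ : ∃ x : ℝ, x = (N : ℝ) ^ (2 / 5 : ℝ) := ⟨_, rfl⟩
  have hx1 : 1 ≤ x := by
    rw [hx]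
    exact Real.one_le_rpow hN1 (by norm_num)
  obtain ⟨M, hM⟩ : ∃ M : ℕ, M = ⌊(N : ℝ) ^ (2 / 5 : ℝ)⌋₊ := ⟨_, rfl⟩
  rw [← hx] at hM
  have hM1 : 1 ≤ M := by
    rw [hM]
    exact Nat.le_floor (by simpa using hx1)
  have hM1' : (1 : ℝ) ≤ M := by exact_mod_cast hM1
  have hMx : (M : ℝ) ≤ x := by
    rw [hM]
    exact Nat.floor_le (by linarith)
  have hM2 : (M : ℝ) ^ 2 ≤ (N : ℝ) ^ (4 / 5 : ℝ) := by
    calc (M : ℝ) ^ 2 ≤ x ^ 2 := pow_le_pow_left₀ (by positivity) hMx 2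
      _ = (N : ℝ) ^ (4 / 5 : ℝ) := by
        rw [hx, ← Real.rpow_natCast, ← Real.rpow_mul hNp.le]
        norm_num
  obtain ⟨r, hr⟩ : ∃ r : ℕ, r = ⌈5 * κ⌉₊ + 5 := ⟨_, rfl⟩
  rw [← hr] at hadm happ
  have hr5 : 5 * κ + 5 ≤ (r : ℝ) := by
    rw [hr]
    push_cast
    linarith [Nat.le_ceil (5 * κ)]
  obtain ⟨η, hη⟩ : ∃ η : ℝ, η = 1 / 10 ^ 10 / (1 + κ) ^ 2 := ⟨_, rfl⟩
  obtain ⟨E, hE⟩ : ∃ E : ℝ, E = Real.exp (C * (1 + κ) ^ C) := ⟨_, rfl⟩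
  have hE0 : 0 < E := by rw [hE]; exact Real.exp_pos _
  have hκ1 : 1 ≤ 1 + κ := by linarith
  have hη1 : η ≤ 1 / 10 := by
    rw [hη]
    refine le_trans (div_le_self (by norm_num) ?_) (by norm_num)
    exact one_le_pow₀ hκ1
  -- the error of the approximation
  have h5 : (M : ℝ) ^ 2 / N ≤ (N : ℝ) ^ (-(1 / 5) : ℝ) := by
    rw [div_le_iff₀ hNp]
    refine hM2.trans (le_of_eq ?_)
    conv_rhs => rw [← Real.rpow_one (N : ℝ), ← Real.rpow_mul hNp.le, one_mul, ← Real.rpow_add hNp]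
    norm_num
  have happ' : ∀ n ∈ Finset.Ioc N N', ∀ x ∈ Finset.Icc 1 M, ∀ y ∈ Finset.Icc 1 M,
      ‖g (n + x * y) - g n * ph r (a n) ((x : ℝ) * y)‖ ≤ R * (N : ℝ) ^ (-(6 / 5) : ℝ) := by
    intro n hn x hx y hy
    have hx' : (x : ℝ) ≤ M := by exact_mod_cast (Finset.mem_Icc.1 hx).2
    have hy' : (y : ℝ) ≤ M := by exact_mod_cast (Finset.mem_Icc.1 hy).2
    have hxy : (x : ℝ) * y ≤ (M : ℝ) ^ 2 := by
      rw [sq]
      exact mul_le_mul hx' hy' (by positivity) (by positivity)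
    have h1 := happ n hn (x * y) (by push_cast; exact hxy.trans hM2)
    push_cast at h1
    refine h1.trans (mul_le_mul_of_nonneg_left ?_ hR)
    have h6 : ((x : ℝ) * y / N) ^ (r + 1) ≤ (N : ℝ) ^ (-(κ + 6 / 5)) := by
      calc ((x : ℝ) * y / N) ^ (r + 1) ≤ ((N : ℝ) ^ (-(1 / 5) : ℝ)) ^ (r + 1) := by
            refine pow_le_pow_left₀ (by positivity) (le_trans ?_ h5) _
            gcongr
        _ = (N : ℝ) ^ (-(1 / 5) * ((r : ℝ) + 1)) := by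
          rw [← Real.rpow_natCast, ← Real.rpow_mul hNp.le]
          push_cast
          ring_nf
        _ ≤ (N : ℝ) ^ (-(κ + 6 / 5)) :=
          Real.rpow_le_rpow_of_exponent_le hN1 (by linarith)
    calc (N : ℝ) ^ κ * ((x : ℝ) * y / N) ^ (r + 1) ≤ (N : ℝ) ^ κ * (N : ℝ) ^ (-(κ + 6 / 5)) := by
          gcongr
      _ = (N : ℝ) ^ (-(6 / 5) : ℝ) := by
          rw [← Real.rpow_add hNp]
          congr 1
          ring
  have hmain := shift g hg N N' M r a (R * (N : ℝ) ^ (-(6 / 5) : ℝ)) (by positivity) hNN hN2 hM1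
    happ'
  -- the first term
  have hTn : ∀ n ∈ Ioc N N', ‖TT r M (a n)‖ ≤ E * (M : ℝ) ^ 2 * (N : ℝ) ^ (-η) := by
    intro n hn
    have h3 := hT N κ (a n) hN hκ (by rw [← hr]; exact hadm n hn)
    rw [← hr, ← hx, ← hM, ← hE, ← hη] at h3
    exact h3
  have hsum : ∑ n ∈ Ioc N N', ‖TT r M (a n)‖ ≤
      (N : ℝ) * (E * (M : ℝ) ^ 2 * (N : ℝ) ^ (-η)) := by
    refine (Finset.sum_le_sum hTn).trans ?_
    rw [Finset.sum_const, Nat.card_Ioc, nsmul_eq_mul]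
    refine mul_le_mul_of_nonneg_right ?_ (by positivity)
    exact_mod_cast (by omega : N' - N ≤ N)
  have hpow : (N : ℝ) ^ (1 - η) = N * (N : ℝ) ^ (-η) := by
    rw [sub_eq_add_neg, Real.rpow_add hNp, Real.rpow_one]
  have t1 : 1 / (M : ℝ) ^ 2 * ∑ n ∈ Ioc N N', ‖TT r M (a n)‖ ≤ E * (N : ℝ) ^ (1 - η) := by
    calc 1 / (M : ℝ) ^ 2 * ∑ n ∈ Ioc N N', ‖TT r M (a n)‖
        ≤ 1 / (M : ℝ) ^ 2 * ((N : ℝ) * (E * (M : ℝ) ^ 2 * (N : ℝ) ^ (-η))) :=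
          mul_le_mul_of_nonneg_left hsum (by positivity)
      _ = E * (N : ℝ) ^ (1 - η) := by
        rw [hpow]
        field_simp
  -- the second term
  have t2 : 2 * (M : ℝ) ^ 2 ≤ 2 * (N : ℝ) ^ (1 - η) := by
    refine mul_le_mul_of_nonneg_left (hM2.trans ?_) (by norm_num)
    exact Real.rpow_le_rpow_of_exponent_le hN1 (by linarith)
  -- the third term
  have t3 : (N : ℝ) * (R * (N : ℝ) ^ (-(6 / 5) : ℝ)) ≤ R * (N : ℝ) ^ (1 - η) := by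
    have h6 : (N : ℝ) * (N : ℝ) ^ (-(6 / 5) : ℝ) ≤ (N : ℝ) ^ (1 - η) := by
      nth_rewrite 1 [← Real.rpow_one (N : ℝ)]
      rw [← Real.rpow_add hNp]
      exact Real.rpow_le_rpow_of_exponent_le hN1 (by linarith)
    calc (N : ℝ) * (R * (N : ℝ) ^ (-(6 / 5) : ℝ)) = R * ((N : ℝ) * (N : ℝ) ^ (-(6 / 5) : ℝ)) := by
          ring
      _ ≤ _ := by gcongr
  -- the constants
  have hC : E + 2 ≤ Real.exp (((C + 3 : ℕ) : ℝ) * (1 + κ) ^ (C + 3)) := by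
    have h7 : (1 + κ) ^ C ≤ (1 + κ) ^ (C + 3) := pow_le_pow_right₀ hκ1 (by omega)
    have h8 : 1 ≤ (1 + κ) ^ (C + 3) := one_le_pow₀ hκ1
    have h9 : (C : ℝ) * (1 + κ) ^ C + 3 ≤ ((C + 3 : ℕ) : ℝ) * (1 + κ) ^ (C + 3) := by
      push_cast
      have h10 := mul_le_mul_of_nonneg_left h7 (Nat.cast_nonneg C : (0 : ℝ) ≤ C)
      linarith
    refine le_trans ?_ (Real.exp_le_exp.2 h9)
    rw [Real.exp_add, ← hE]
    have h11 : (3 : ℝ) + 1 ≤ Real.exp 3 := Real.add_one_le_exp 3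
    have h12 : 1 ≤ E := by
      rw [hE]
      exact Real.one_le_exp (by positivity)
    nlinarith
  rw [← hη]
  calc ‖∑ n ∈ Ioc N N', g n‖
      ≤ E * (N : ℝ) ^ (1 - η) + 2 * (N : ℝ) ^ (1 - η) + R * (N : ℝ) ^ (1 - η) :=
        hmain.trans (add_le_add (add_le_add t1 t2) t3)
    _ = (E + 2 + R) * (N : ℝ) ^ (1 - η) := by ring
    _ ≤ _ := by
        refine mul_le_mul_of_nonneg_right ?_ (by positivity)
        linarith

end Pool.Agent.N586.RT
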